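import Pool.Agent.H280Z.Mult.Fibre

set_option autoImplicit false

open Polynomial Filter Topology OnePoint

namespace Pool.Agent.H280Z.Mult

theorem hom_add_deg {e : ℕ} {R : ℂ[X]} (hR : R.natDegree ≤ e) (k : ℕ) (a b : ℂ) :
    hom (e + k) R a b = b ^ k * hom e R a b := by
  by_cases hb : b = 0
  · subst hb
    rcases Nat.eq_zero_or_pos k with rfl | hk
    · simp
    · rw [hom_zero, coeff_eq_zero_of_natDegree_lt (by omega), zero_pow (by omega)]; simp
  · rw [hom_of_ne hR _ hb, hom_of_ne (hR.trans (Nat.le_add_right _ _)) _ hb]; ring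

theorem hom_X_mul {d : ℕ} {q : ℂ[X]} (hq : q.natDegree ≤ d) (a b : ℂ) :
    hom (d + 1) (X * q) a b = a * hom d q a b := by
  by_cases hb : b = 0
  · subst hb
    rw [hom_zero, hom_zero, coeff_X_mul]; ring
  · have h1 : (X * q).natDegree ≤ d + 1 := by
      have := natDegree_mul_le (p := (X : ℂ[X])) (q := q)
      rw [natDegree_X] at this; omega
    rw [hom_of_ne hq _ hb, hom_of_ne h1 _ hb, eval_mul, eval_X]
    field_simp
    ring

theorem order_of_eq {g G : ℂ → ℂ} {m : ℕ} (hg : AnalyticAt ℂ g 0) (hG : AnalyticAt ℂ G 0)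
    (h0 : G 0 ≠ 0) (h : ∀ᶠ t in 𝓝 (0 : ℂ), g t = t ^ m * G t) : analyticOrderNatAt g 0 = m := by
  have : analyticOrderAt g 0 = m := by
    rw [hg.analyticOrderAt_eq_natCast]
    exact ⟨G, hG, h0, by simpa using h⟩
  unfold analyticOrderNatAt
  rw [this]; rfl

theorem fixMult_coe {d : ℕ} {p q : ℂ[X]} (h : Good d p q) (hR : p - X * q ≠ 0) {z : ℂ}
    (hz : p.eval z = z * q.eval z) :
    fixMult (ratMap d p q) (z : P1) = rootMultiplicity z (p - X * q) := by
  have hq : q.eval z ≠ 0 := by
    intro h0
    rcases h.ev z with h1 | h1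
    · exact h1 (by rw [hz, h0, mul_zero])
    · exact h1 h0
  have hsh : ∀ r : ℂ[X], AnalyticAt ℂ (fun t => r.eval (z + t)) 0 := by
    intro r
    have : AnalyticAt ℂ (fun w => r.eval w) (z + 0) := r.differentiable.analyticAt _
    exact this.comp (f := fun t => z + t) (by fun_prop)
  have hq0 : q.eval (z + 0) ≠ 0 := by simpa using hq
  have hev := (hsh q).continuousAt.eventually_ne hq0
  have r : Rep (ratMap d p q) (z : P1) (z : P1) (fun t => p.eval (z + t) / q.eval (z + t) - z) := by
    refine ⟨((hsh p).div (hsh q) hq0).sub analyticAt_const, ?_, ?_⟩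
    · simp only [add_zero]; rw [hz]; field_simp; ring
    · filter_upwards [hev] with t ht
      rw [chart_coe, ratMap_coe, proj_of_ne _ ht, chart_coe]
      congr 1; ring
  rw [r.fixMult]
  obtain ⟨S, hS, hS'⟩ := exists_eq_pow_rootMultiplicity_mul_and_not_dvd (p - X * q) hR z
  rw [dvd_iff_isRoot] at hS'
  refine order_of_eq (G := fun t => S.eval (z + t) / q.eval (z + t)) (r.an.sub analyticAt_id)
    ((hsh S).div (hsh q) hq0) (div_ne_zero (by simpa using hS') hq0) ?_
  filter_upwards [hev] with t ht
  have := congrArg (eval (z + t)) hS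
  simp only [eval_sub, eval_mul, eval_X, eval_pow, eval_C, add_sub_cancel_left] at this
  rw [← mul_div_assoc, ← this]
  field_simp
  ring

theorem fixMult_infty {d : ℕ} {p q : ℂ[X]} (h : Good d p q) (hR : p - X * q ≠ 0)
    (hRd : (p - X * q).natDegree ≤ d + 1) (hz : q.coeff d = 0) :
    fixMult (ratMap d p q) ∞ = d + 1 - (p - X * q).natDegree := by
  have hp : p.coeff d ≠ 0 := by
    rcases h.top with h1 | h1
    · exact h1
    · exact absurd hz h1
  have han : ∀ (e : ℕ) (r : ℂ[X]), AnalyticAt ℂ (fun t => hom e r 1 t) 0 := fun e r =>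
    analyticAt_hom _ _ analyticAt_const analyticAt_id
  have hp0 : hom d p 1 0 ≠ 0 := by simpa [hom_zero] using hp
  have hev := (han d p).continuousAt.eventually_ne hp0
  have r : Rep (ratMap d p q) ∞ ∞ (fun t => hom d q 1 t / hom d p 1 t) := by
    refine ⟨(han d q).div (han d p) hp0, by simp [hom_zero, hz], ?_⟩
    filter_upwards [hev] with t ht
    rw [chart_infty, chart_infty, ratMap_proj h.hp h.hq (Or.inl one_ne_zero),
      ← proj_smul ht 1 (hom d q 1 t / hom d p 1 t)]
    congr 1
    · simp
    · field_simp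
  rw [r.fixMult]
  set e := (p - X * q).natDegree with he
  refine order_of_eq (G := fun t => -hom e (p - X * q) 1 t / hom d p 1 t) (r.an.sub analyticAt_id)
    ((han _ _).neg.div (han d p) hp0) (div_ne_zero ?_ hp0) ?_
  · rw [hom_zero, neg_ne_zero, one_pow, mul_one]
    exact leadingCoeff_ne_zero.2 hR
  filter_upwards [hev] with t ht
  have h1 := hom_add_deg he.ge (d + 1 - e) 1 t
  rw [show e + (d + 1 - e) = d + 1 by omega, hom_sub, hom_add_deg h.hp 1, hom_X_mul h.hq] at h1
  field_simp
  linear_combination -h1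

theorem card_fixed {d : ℕ} {f : P1 → P1} (hf : IsRat d f) (hd : d ≠ 1) :
    Multiset.card (∑ᶠ x ∈ Function.fixedPoints f, contrib f x) = d + 1 := by
  classical
  have hfin := hf.finite_fixed hd
  obtain ⟨p, q, h, rfl⟩ := isRat_iff.1 hf
  have hfix : ∀ z : ℂ, (z : P1) ∈ Function.fixedPoints (ratMap d p q) ↔ p.eval z = z * q.eval z :=
    fun z => proj_eq_coe (h.ev z)
  have hR : p - X * q ≠ 0 := by
    intro h0
    have h1 : Set.range ((↑) : ℂ → P1) ⊆ Function.fixedPoints (ratMap d p q) := by
      rintro _ ⟨z, rfl⟩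
      rw [hfix]
      have := congrArg (eval z) h0
      simp only [eval_sub, eval_mul, eval_X, eval_zero] at this
      exact sub_eq_zero.1 this
    exact Set.infinite_range_of_injective OnePoint.coe_injective (hfin.subset h1)
  have hRd : (p - X * q).natDegree ≤ d + 1 := by
    have h1 := natDegree_mul_le (p := (X : ℂ[X])) (q := q)
    rw [natDegree_X] at h1
    have h2 := natDegree_sub_le p (X * q)
    have h3 := h.hp
    have h4 := h.hq
    omega
  have e1 : Multiset.card (∑ᶠ x ∈ Function.fixedPoints (ratMap d p q), contrib (ratMap d p q) x) =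
      ∑ᶠ x ∈ Function.fixedPoints (ratMap d p q), fixMult (ratMap d p q) x := by
    have := (Multiset.cardHom (α := ℂ)).map_finsum_mem (contrib (ratMap d p q)) hfin
    simpa [contrib] using this
  let A : Set P1 := ((↑) : ℂ → P1) '' ((p - X * q).roots.toFinset : Set ℂ)
  have hA : ∀ x, x ∈ A ↔ x ≠ ∞ ∧ x ∈ Function.fixedPoints (ratMap d p q) := by
    intro x
    induction x using OnePoint.rec with
    | infty => simp [A]
    | coe z =>
      rw [hfix]
      simp [A, hR, sub_eq_zero]
  have e2 : ∑ᶠ x ∈ A, fixMult (ratMap d p q) x = (p - X * q).natDegree := by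
    rw [finsum_mem_image OnePoint.coe_injective.injOn, finsum_mem_coe_finset,
      ← IsAlgClosed.card_roots_eq_natDegree, ← Multiset.toFinset_sum_count_eq]
    refine Finset.sum_congr rfl fun z hz => ?_
    rw [count_roots, fixMult_coe h hR]
    exact (hfix z).1 ((hA _).1 ⟨z, hz, rfl⟩).2
  rw [e1]
  by_cases hz : q.coeff d = 0
  · have : Function.fixedPoints (ratMap d p q) = insert ∞ A := by
      ext x
      rw [Set.mem_insert_iff, hA]
      by_cases hx : x = ∞
      · subst hx
        simp only [true_or, iff_true]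
        exact proj_eq_infty.2 hz
      · simp [hx]
    rw [this, finsum_mem_insert _ (fun h0 => ((hA _).1 h0).1 rfl)
      ((Finset.finite_toSet _).image _), e2, fixMult_infty h hR hRd hz]
    omega
  · have : Function.fixedPoints (ratMap d p q) = A := by
      ext x
      rw [hA]
      by_cases hx : x = ∞
      · subst hx
        simp only [ne_eq, not_true, false_and, iff_false]
        exact fun h0 => hz (proj_eq_infty.1 h0)
      · simp [hx]
    rw [this, e2]
    refine le_antisymm hRd (le_natDegree_of_ne_zero ?_)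
    rw [coeff_sub, coeff_X_mul, coeff_eq_zero_of_natDegree_lt (Nat.lt_succ_of_le h.hp)]
    simpa using hz

theorem card_spec {d : ℕ} {f : P1 → P1} (hf : IsRat d f) (hd : 2 ≤ d) {n : ℕ} (hn : 1 ≤ n) :
    Multiset.card (spec f n) = d ^ n + 1 := by
  have hd' : d ^ n ≠ 1 := by
    have := Nat.one_lt_pow (n := n) (a := d) (by omega) (by omega)
    omega
  exact card_fixed (hf.iterate n) hd'

end Pool.Agent.H280Z.Mult
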