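import Mathlib

/-!
Definitions for the multiplier spectrum of rational self-maps of the Riemann sphere.
-/

set_option autoImplicit false

open Polynomial Filter Topology OnePoint

namespace Pool.Agent.H280Z.Mult

/-- The Riemann sphere. -/
abbrev P1 : Type := OnePoint ℂ

open Classical in
/-- The point `[a : b]` of the sphere with homogeneous coordinates `(a, b) ≠ (0, 0)`. -/
noncomputable def proj (a b : ℂ) : P1 := if b = 0 then ∞ else ((a / b : ℂ) : P1)

/-- The self-map `z ↦ p(z) / q(z)` of the sphere, where `p` and `q` are read as binary forms of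
degree `d`: `z ↦ [p(z) : q(z)]` for finite `z`, and `∞ ↦ [p_d : q_d]`. -/
noncomputable def ratMap (d : ℕ) (p q : ℂ[X]) (x : P1) : P1 :=
  x.elim (proj (p.coeff d) (q.coeff d)) (fun z => proj (p.eval z) (q.eval z))

/-- `f` is a rational map of degree `d`: it is `p / q` for coprime polynomials `p`, `q` whose
larger degree is `d`. -/
def IsRat (d : ℕ) (f : P1 → P1) : Prop :=
  ∃ p q : ℂ[X], IsCoprime p q ∧ max p.natDegree q.natDegree = d ∧ f = ratMap d p q

/-- `f` and `g` are conjugate by a Moebius transformation (a rational map of degree one). -/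
def Conj (f g : P1 → P1) : Prop := ∃ μ : P1 → P1, IsRat 1 μ ∧ μ ∘ f = g ∘ μ

/-- `g` is an elementary transformation of `f`. -/
def ElemStep (f g : P1 → P1) : Prop :=
  ∃ (h₁ h₂ : P1 → P1) (d₁ d₂ : ℕ), IsRat d₁ h₁ ∧ IsRat d₂ h₂ ∧ f = h₁ ∘ h₂ ∧ g = h₂ ∘ h₁

/-- A finite chain of elementary transformations leads from `f` to `g`. -/
def ElemEquiv (f g : P1 → P1) : Prop := Relation.ReflTransGen ElemStep f g

/-- The local parameter centred at `x`: `t ↦ x + t` for finite `x`, and `t ↦ 1 / t` at `∞`. -/
noncomputable def chart (x : P1) (t : ℂ) : P1 :=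
  x.elim (proj 1 t) (fun z => ((z + t : ℂ) : P1))

/-- The local coordinate centred at `x`, inverse to `chart x`: `w ↦ w - x` for finite `x`, and
`w ↦ 1 / w` at `∞`. -/
noncomputable def coord (x : P1) (y : P1) : ℂ :=
  x.elim (y.elim 0 (fun w => w⁻¹)) (fun z => y.elim 0 (fun w => w - z))

/-- The map `f` near its fixed point `x`, read in the local coordinate centred at `x`. -/
noncomputable def localForm (f : P1 → P1) (x : P1) (t : ℂ) : ℂ := coord x (f (chart x t))

/-- The multiplier of `f` at the fixed point `x`. -/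
noncomputable def multiplier (f : P1 → P1) (x : P1) : ℂ := deriv (localForm f x) 0

/-- The multiplicity of `x` as a fixed point of `f`: the order of vanishing of `f(t) - t` in the
local coordinate centred at `x`. -/
noncomputable def fixMult (f : P1 → P1) (x : P1) : ℕ :=
  analyticOrderNatAt (fun t => localForm f x t - t) 0

/-- `S_n(f)`: the multiset of the multipliers of `f ^ n` at its fixed points, each fixed point
counted with its multiplicity. -/
noncomputable def spec (f : P1 → P1) (n : ℕ) : Multiset ℂ :=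
  ∑ᶠ x ∈ Function.fixedPoints f^[n],
    Multiset.replicate (fixMult f^[n] x) (multiplier f^[n] x)

/-- `Θ : ℂ → P1` is holomorphic: near every point it is given by an analytic function in the
local coordinate of the sphere centred at the image point. -/
def IsHolo (Θ : ℂ → P1) : Prop :=
  ∀ z : ℂ, ∃ φ : ℂ → ℂ, AnalyticAt ℂ φ z ∧ ∀ᶠ w in 𝓝 z, Θ w = chart (Θ z) (φ w)

/-- `f` is a Lattes map: there are a complex torus `ℂ / Λ`, an affine self-map `z ↦ a z + b` of it
and a nonconstant holomorphic map `Θ` from it to the sphere with `f ∘ Θ = Θ ∘ L`. -/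
def IsLattes (f : P1 → P1) : Prop :=
  ∃ (Λ : PeriodPair) (Θ : ℂ → P1) (a b : ℂ), IsHolo Θ ∧ (∀ z, ∀ l ∈ Λ.lattice, Θ (z + l) = Θ z) ∧
    (∃ z w, Θ z ≠ Θ w) ∧ (∀ l ∈ Λ.lattice, a * l ∈ Λ.lattice) ∧ ∀ z, f (Θ z) = Θ (a * z + b)

end Pool.Agent.H280Z.Mult
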