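import Pool.Agent.H280Z.Mult.Spec

set_option autoImplicit false

open Polynomial Filter Topology OnePoint

namespace Pool.Agent.H280Z.Mult

theorem eval_pN (z : ℂ) : pN.eval z = 5 * z ^ 11 + 11 * z ^ 3 := by simp [pN]
theorem eval_pD (z : ℂ) : pD.eval z = 11 * z ^ 8 + 5 := by simp [pD]

noncomputable def PW (w : ℂ) : ℂ[X] := C 5 * X ^ 11 - C (11 * w) * X ^ 8 + C 11 * X ^ 3 - C (5 * w)

theorem deg_PW (w : ℂ) : (PW w).natDegree = 11 := by unfold PW; compute_degree!

theorem eval_PW (w z : ℂ) : (PW w).eval z = 5 * z ^ 11 - 11 * w * z ^ 8 + 11 * z ^ 3 - 5 * w := by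
  simp [PW]

theorem eval_dPW (w z : ℂ) : (derivative (PW w)).eval z =
    55 * z ^ 10 - 88 * w * z ^ 7 + 33 * z ^ 2 := by
  simp [PW]; ring

theorem eval_d3PW (w z : ℂ) : (derivative^[3] (PW w)).eval z =
    4950 * z ^ 8 - 3696 * w * z ^ 5 + 66 := by
  simp [PW, Function.iterate_succ]; ring

theorem multiple_root {w z : ℂ} (h : 1 < rootMultiplicity z (PW w)) :
    z = w ^ 3 ∧ rootMultiplicity z (PW w) ≤ 3 := by
  have h0 := isRoot_iterate_derivative_of_lt_rootMultiplicity (n := 0) (lt_trans zero_lt_one h)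
  have h1 := isRoot_iterate_derivative_of_lt_rootMultiplicity (n := 1) h
  simp only [Function.iterate_zero, id_eq, IsRoot.def, eval_PW] at h0
  simp only [Function.iterate_one, IsRoot.def, eval_dPW] at h1
  have hW : z ^ 2 * (z ^ 8 - 1) ^ 2 = 0 := by
    linear_combination ((11 * z ^ 8 + 5) * h1 - 88 * z ^ 7 * h0) / 165
  have h3 : ∀ (_ : 4950 * z ^ 8 - 3696 * w * z ^ 5 + 66 ≠ 0), rootMultiplicity z (PW w) ≤ 3 := by
    intro hne
    by_contra hlt
    have := isRoot_iterate_derivative_of_lt_rootMultiplicity (n := 3) (not_le.1 hlt)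
    rw [IsRoot.def, eval_d3PW] at this
    exact hne this
  rcases mul_eq_zero.1 hW with h2 | h2
  · have hz : z = 0 := pow_eq_zero_iff (by norm_num) |>.1 h2
    subst hz
    have hw : w = 0 := by linear_combination -h0 / 5
    exact ⟨by rw [hw]; norm_num, h3 (by norm_num)⟩
  · have hz : z ^ 8 = 1 := sub_eq_zero.1 (pow_eq_zero_iff (by norm_num) |>.1 h2)
    have hw : w = z ^ 3 := by
      linear_combination -h0 / 16 + (5 * z ^ 3 - 11 * w) / 16 * hz
    refine ⟨by rw [hw]; linear_combination -z * hz, h3 ?_⟩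
    rw [hw]
    intro h4
    have : (1320 : ℂ) = 0 := by linear_combination h4 - 1254 * hz
    norm_num at this

theorem card_roots_PW (w : ℂ) : ∃ s : Finset ℂ, 6 ≤ s.card ∧ ∀ z ∈ s, (PW w).eval z = 0 := by
  classical
  have hne : PW w ≠ 0 := by
    intro h; have := deg_PW w; rw [h] at this; simp at this
  refine ⟨(PW w).roots.toFinset, ?_, fun z hz => ?_⟩
  · have h1 := Multiset.toFinset_sum_count_eq (PW w).roots
    rw [IsAlgClosed.card_roots_eq_natDegree, deg_PW] at h1
    have h2 : ∑ a ∈ (PW w).roots.toFinset, (PW w).roots.count a ≤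
        ∑ a ∈ (PW w).roots.toFinset, (1 + if a = w ^ 3 then 2 else 0) := by
      refine Finset.sum_le_sum fun a _ => ?_
      rw [count_roots]
      by_cases h3 : 1 < rootMultiplicity a (PW w)
      · obtain ⟨h4, h5⟩ := multiple_root h3
        rw [if_pos h4]; omega
      · omega
    rw [h1, Finset.sum_add_distrib, Finset.sum_ite_eq'] at h2
    simp only [Finset.sum_const, smul_eq_mul, mul_one] at h2
    split_ifs at h2 <;> omega
  · rw [Multiset.mem_toFinset, mem_roots hne] at hz
    exact hz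

theorem fibre_large {y : P1} (h1 : y ≠ ((2 : ℂ) : P1)) (h2 : y ≠ ((-2 : ℂ) : P1)) :
    6 ≤ (ff ⁻¹' {y}).encard := by
  obtain ⟨w, rfl⟩ := exists_XX y
  obtain ⟨s, hs, hz⟩ := card_roots_PW w
  have hF : ∀ z ∈ s, FF (z : P1) = (w : P1) := by
    intro z hzs
    have := hz z hzs
    rw [eval_PW] at this
    show proj (pN.eval z) (pD.eval z) = w
    rw [proj_eq_coe (good_F.ev z), eval_pN, eval_pD]
    linear_combination this
  have hw : inv (w : P1) ≠ w := by
    intro h
    by_cases h0 : w = 0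
    · rw [h0, ← proj_one, inv_proj (Or.inr one_ne_zero), proj_zero, proj_one] at h
      exact OnePoint.infty_ne_coe _ h
    · rw [inv_coe h0, OnePoint.coe_eq_coe] at h
      have h3 : (w - 1) * (w + 1) = 0 := by
        have : w * w = 1 := by nth_rewrite 1 [← h]; exact inv_mul_cancel₀ h0
        linear_combination this
      rcases mul_eq_zero.1 h3 with h4 | h4
      · have : w = 1 := by linear_combination h4
        apply h1; rw [XX_coe h0, this]; congr 1; norm_num
      · have : w = -1 := by linear_combination h4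
        apply h2; rw [XX_coe h0, this]; congr 1; norm_num
  have := Set.encard_le_encard_of_injOn (s := (s : Set ℂ)) (t := ff ⁻¹' {XX (w : P1)})
    (f := fun z : ℂ => XX (z : P1)) ?_ ?_
  · rw [Set.encard_coe_eq_coe_finsetCard] at this
    exact le_trans (by exact_mod_cast hs) this
  · intro z hzs
    show ff (XX z) = XX w
    rw [semiconj, hF z hzs]
  · intro a ha b hb hab
    rcases (XX_eq_iff _ _).1 hab with h3 | h3
    · exact (OnePoint.coe_eq_coe.1 h3).symm
    · exfalso
      apply hw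
      rw [← hF a ha, ← FF_inv, ← h3, hF a ha, hF b hb]

theorem fibre_small : (ff ⁻¹' {((2 : ℂ) : P1)}).encard ≤ 5 := by
  classical
  let Q : ℂ[X] := (X - C 2) * (C 5 * X ^ 4 + C 15 * X ^ 3 + C 10 * X ^ 2 - C 6 * X - C 8)
  have hQ : Q.natDegree = 5 := by unfold Q; compute_degree!
  have hne : Q ≠ 0 := by intro h; rw [h] at hQ; simp at hQ
  have hsub : ff ⁻¹' {((2 : ℂ) : P1)} ⊆ ((↑) : ℂ → P1) '' (Q.roots.toFinset : Set ℂ) := by
    intro x hx
    induction x using OnePoint.rec with
    | infty =>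
      have : ff ∞ = ((2 : ℂ) : P1) := hx
      rw [ff_infty] at this
      exact absurd this (OnePoint.infty_ne_coe _)
    | coe x =>
      refine ⟨x, ?_, rfl⟩
      have h1 : ff (x : P1) = ((2 : ℂ) : P1) := hx
      rw [ff_coe, proj_eq_coe (good_f.ev x), eval_pn, eval_pd] at h1
      rw [Finset.mem_coe, Multiset.mem_toFinset, mem_roots hne, IsRoot.def]
      have h2 : Q.eval x = (x - 2) * (5 * x ^ 4 + 15 * x ^ 3 + 10 * x ^ 2 - 6 * x - 8) := by
        simp [Q]
      have h3 : (x - 2) * (Q.eval x) ^ 2 = 0 := by rw [h2]; linear_combination h1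
      rcases mul_eq_zero.1 h3 with h4 | h4
      · rw [h2, h4, zero_mul]
      · exact pow_eq_zero_iff (by norm_num) |>.1 h4
  refine (Set.encard_le_encard hsub).trans ((Set.encard_image_le _ _).trans ?_)
  rw [Set.encard_coe_eq_coe_finsetCard]
  have := (Multiset.toFinset_card_le Q.roots).trans (card_roots' Q)
  rw [hQ] at this
  exact_mod_cast this

/-- the invariant separating the two maps -/
def Inv (h : P1 → P1) : Prop := ∃ y, h y = y ∧ (h ⁻¹' {y}).encard ≤ 5

theorem inv_ff : Inv ff := ⟨_, ff_four (by norm_num), fibre_small⟩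

theorem not_inv_gg : ¬ Inv gg := by
  rintro ⟨y, hy, hc⟩
  have e : gg ⁻¹' {y} = ff ⁻¹' {rot (-1) y} := by
    ext x
    simp only [Set.mem_preimage, Set.mem_singleton_iff, gg_eq]
    constructor
    · intro h; rw [← h, rot_rot]; simp [rot_one]
    · intro h; rw [h, rot_rot]; simp [rot_one]
  have e2 : ff y = rot (-1) y := by
    have : y ∈ gg ⁻¹' {y} := hy
    rw [e] at this; exact this
  have e3 : ∀ c : ℂ, c ^ 2 = 4 → rot (-1) y ≠ (c : P1) := by
    intro c hc4 h
    have h1 : y = ((-c : ℂ) : P1) := by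
      have := congrArg (rot (-1)) h
      rw [rot_rot, rot_coe] at this
      simpa [rot_one] using this
    rw [h, h1, ff_four (by rw [neg_sq, hc4]), OnePoint.coe_eq_coe] at e2
    have : c = 0 := by linear_combination -e2 / 2
    rw [this] at hc4; norm_num at hc4
  have := (fibre_large (e3 2 (by norm_num)) (e3 (-2) (by norm_num))).trans (e ▸ hc)
  norm_num at this

theorem Inv.conj {h k μ : P1 → P1} (hμ : Function.Bijective μ) (hc : μ ∘ h = k ∘ μ) (i : Inv h) :
    Inv k := by
  obtain ⟨y, hy, hle⟩ := i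
  have hc' : ∀ x, μ (h x) = k (μ x) := congrFun hc
  refine ⟨μ y, by rw [← hc', hy], ?_⟩
  have : k ⁻¹' {μ y} ⊆ μ '' (h ⁻¹' {y}) := by
    intro x hx
    obtain ⟨x', rfl⟩ := hμ.2 x
    refine ⟨x', hμ.1 ?_, rfl⟩
    rw [hc']; exact hx
  exact (Set.encard_le_encard this).trans ((Set.encard_image_le _ _).trans hle)

theorem Inv.conj' {h k μ : P1 → P1} (hμ : Function.Bijective μ) (hc : μ ∘ h = k ∘ μ) (i : Inv k) :
    Inv h := by
  let e := Equiv.ofBijective μ hμ
  refine Inv.conj (μ := e.symm) e.symm.bijective ?_ i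
  funext x
  obtain ⟨x', rfl⟩ := e.surjective x
  simp only [Function.comp_apply, Equiv.symm_apply_apply]
  rw [Equiv.symm_apply_eq]
  exact (congrFun hc x').symm

theorem not_conj : ¬ Conj ff gg := by
  rintro ⟨μ, hμ, hc⟩
  exact not_inv_gg (inv_ff.conj hμ.bijective hc)

theorem step_inv {h k : P1 → P1} (s : ElemStep h k) (hh : IsRat 11 h ∧ Inv h) :
    IsRat 11 k ∧ Inv k := by
  obtain ⟨h₁, h₂, d₁, d₂, r₁, r₂, rfl, rfl⟩ := s
  have hd : d₁ * d₂ = 11 := (r₁.comp r₂).deg_unique hh.1
  refine ⟨by rw [← hd, mul_comm]; exact r₂.comp r₁, ?_⟩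
  have hp : Nat.Prime 11 := by norm_num
  rcases (Nat.dvd_prime hp).1 ⟨d₂, hd.symm⟩ with h1 | h1
  · subst h1
    exact Inv.conj' (μ := h₁) r₁.bijective rfl hh.2
  · have h2 : d₂ = 1 := by rw [h1] at hd; omega
    subst h2
    exact Inv.conj (μ := h₂) r₂.bijective rfl hh.2

theorem not_elemEquiv : ¬ ElemEquiv ff gg := by
  intro h
  have : ∀ k, ElemEquiv ff k → IsRat 11 k ∧ Inv k := by
    intro k hk
    induction hk with
    | refl => exact ⟨isRat_ff, inv_ff⟩
    | tail _ s ih => exact step_inv s ih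
  exact not_inv_gg (this gg h).2

theorem not_lattes_ff : ¬ IsLattes ff :=
  not_lattes_of_crit isRat_ff (by norm_num) ff_infty crit_infty

theorem not_lattes_gg : ¬ IsLattes gg := by
  have e : gg = rot (-1) ∘ ff := funext gg_eq
  refine not_lattes_of_crit isRat_gg (by norm_num) (by rw [gg_eq, ff_infty, rot_infty]) ?_
  rw [e]
  exact crit_infty.comp (isRat_rot neg_ne)

end Pool.Agent.H280Z.Mult
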