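import Pool.Agent.H280Z.Mult.Local

set_option autoImplicit false

open Polynomial Filter Topology OnePoint

namespace Pool.Agent.H280Z.Mult

theorem chart_infty_eq {t : ℂ} : chart ∞ t = ∞ ↔ t = 0 := by rw [chart_infty, proj_eq_infty]

theorem holo_dichotomy {Θ : ℂ → P1} (hol : IsHolo Θ) (z : ℂ) :
    (∀ᶠ w in 𝓝 z, Θ w = ∞) ∨ (∀ᶠ w in 𝓝[≠] z, Θ w ≠ ∞) := by
  obtain ⟨φ, ha, hφ⟩ := hol z
  generalize Θ z = y at hφ
  induction y using OnePoint.rec with
  | infty =>
    rcases ha.eventually_eq_zero_or_eventually_ne_zero with h | h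
    · left
      filter_upwards [h, hφ] with w h1 h2
      rw [h2, chart_infty_eq]; exact h1
    · right
      filter_upwards [h, eventually_nhdsWithin_of_eventually_nhds hφ] with w h1 h2
      rw [h2, Ne, chart_infty_eq]; exact h1
  | coe y =>
    right
    filter_upwards [eventually_nhdsWithin_of_eventually_nhds hφ] with w h2
    rw [h2, chart_coe]; exact OnePoint.coe_ne_infty _

theorem holo_isolated {Θ : ℂ → P1} (hol : IsHolo Θ) (hne : ∃ z w, Θ z ≠ Θ w) (z : ℂ) :
    ∀ᶠ w in 𝓝[≠] z, Θ w ≠ ∞ := by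
  let Z : Set ℂ := {z | ∀ᶠ w in 𝓝 z, Θ w = ∞}
  have hZo : IsOpen Z := isOpen_setOfPred_eventually_nhds
  have hZc : IsClosed Z := by
    rw [← isOpen_compl_iff, isOpen_iff_mem_nhds]
    intro x hx
    have h1 := (holo_dichotomy hol x).resolve_left hx
    rw [eventually_nhdsWithin_iff] at h1
    filter_upwards [h1] with w hw
    intro hwZ
    by_cases hwx : w = x
    · exact hx (hwx ▸ hwZ)
    · have hwZ' : ∀ᶠ v in 𝓝 w, Θ v = ∞ := hwZ
      exact hw hwx hwZ'.self_of_nhds
  rcases isClopen_iff.1 ⟨hZc, hZo⟩ with h | h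
  · refine (holo_dichotomy hol z).resolve_left fun hz => ?_
    have : z ∈ Z := hz
    rw [h] at this; exact this
  · exfalso
    obtain ⟨a, b, hab⟩ := hne
    have ha : ∀ᶠ v in 𝓝 a, Θ v = ∞ := (h ▸ Set.mem_univ a : a ∈ Z)
    have hb : ∀ᶠ v in 𝓝 b, Θ v = ∞ := (h ▸ Set.mem_univ b : b ∈ Z)
    exact hab (ha.self_of_nhds.trans hb.self_of_nhds.symm)

theorem holo_hits {Λ : PeriodPair} {Θ : ℂ → P1} (hol : IsHolo Θ)
    (per : ∀ z, ∀ l ∈ Λ.lattice, Θ (z + l) = Θ z) (hne : ∃ z w, Θ z ≠ Θ w) : ∃ z, Θ z = ∞ := by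
  by_contra h
  push Not at h
  have h1 : ∀ z, ∃ y : ℂ, (y : P1) = Θ z := fun z => OnePoint.ne_infty_iff_exists.1 (h z)
  choose G hG using h1
  have hd : Differentiable ℂ G := by
    intro z
    obtain ⟨φ, ha, hφ⟩ := hol z
    have : G =ᶠ[𝓝 z] fun w => G z + φ w := by
      filter_upwards [hφ] with w hw
      rw [← hG, ← hG, chart_coe] at hw
      exact OnePoint.coe_eq_coe.1 hw
    exact (this.differentiableAt_iff).2 (ha.differentiableAt.const_add _)
  have hb := (IsZLattice.isCompact_range_of_periodic Λ.lattice G hd.continuous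
    (fun z w hw => OnePoint.coe_eq_coe.1 (by rw [hG, hG, per z w hw]))).isBounded
  obtain ⟨a, b, hab⟩ := hne
  exact hab (by rw [← hG, ← hG, hd.apply_eq_apply_of_bounded hb a b])

theorem not_lattes {f : P1 → P1} {φ : ℂ → ℂ} (r : Rep f ∞ ∞ φ) (h0 : deriv φ 0 = 0)
    (hfin : analyticOrderAt φ 0 ≠ ⊤) : ¬ IsLattes f := by
  rintro ⟨Λ, Θ, a, b, hol, per, hne, -, hsemi⟩
  have iso := holo_isolated hol hne
  let u : ℂ → ℂ := fun w => coord ∞ (Θ w)
  have hu : ∀ z, Θ z = ∞ → AnalyticAt ℂ u z ∧ u z = 0 ∧ ∀ᶠ w in 𝓝 z, Θ w = chart ∞ (u w) := by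
    intro z hz
    obtain ⟨ψ, ha, hψ⟩ := hol z
    rw [hz] at hψ
    have e : u =ᶠ[𝓝 z] ψ := by
      filter_upwards [hψ] with w hw
      simp only [u, hw, coord_chart]
    refine ⟨ha.congr e.symm, by simp [u, hz, coord], ?_⟩
    filter_upwards [hψ, e] with w h1 h2
    rw [h1, h2]
  have hfinu : ∀ z, Θ z = ∞ → analyticOrderAt u z ≠ ⊤ := by
    intro z hz h
    rw [analyticOrderAt_eq_top] at h
    have h1 : ∀ᶠ w in 𝓝[≠] z, False := by
      filter_upwards [iso z, eventually_nhdsWithin_of_eventually_nhds h,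
        eventually_nhdsWithin_of_eventually_nhds (hu z hz).2.2] with w h1 h2 h3
      exact h1 (by rw [h3, h2, chart_zero])
    exact h1.exists.elim fun _ h => h
  have h2 : (2 : ℕ) ≤ analyticOrderAt φ 0 := by
    rw [natCast_le_analyticOrderAt_iff_iteratedDeriv_eq_zero r.an]
    intro i hi
    interval_cases i
    · simpa using r.zero
    · simpa using h0
  -- one step
  have step : ∀ z, Θ z = ∞ → Θ (a * z + b) = ∞ ∧
      2 * analyticOrderNatAt u z ≤ analyticOrderNatAt u (a * z + b) := by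
    intro z hz
    have hLz : Θ (a * z + b) = ∞ := by rw [← hsemi, hz, r.apply]
    refine ⟨hLz, ?_⟩
    obtain ⟨ua, u0, uev⟩ := hu z hz
    have ht : Tendsto u (𝓝 z) (𝓝 0) := by simpa [u0] using ua.continuousAt.tendsto
    have e : (u ∘ fun w => a * w + b) =ᶠ[𝓝 z] φ ∘ u := by
      filter_upwards [uev, ht.eventually r.ev] with w h1 h2
      simp only [Function.comp_apply, u]
      rw [← hsemi, h1, h2, coord_chart, coord_chart]
    have e2 : analyticOrderAt (φ ∘ u) z = analyticOrderAt φ 0 * analyticOrderAt u z := by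
      have := AnalyticAt.analyticOrderAt_comp (f := φ) (g := u) (by rw [u0]; exact r.an) ua
      simpa [u0] using this
    by_cases ha : a = 0
    · exfalso
      have e3 : analyticOrderAt (φ ∘ u) z = ⊤ := by
        rw [← analyticOrderAt_congr e, analyticOrderAt_eq_top]
        refine Eventually.of_forall fun w => ?_
        have : a * w + b = a * z + b := by simp [ha]
        simp only [Function.comp_apply, this]
        exact (hu _ hLz).2.1
      rw [e2] at e3
      exact (WithTop.mul_ne_top hfin (hfinu z hz)) e3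
    · have e3 : analyticOrderAt (u ∘ fun w => a * w + b) z = analyticOrderAt u (a * z + b) := by
        apply analyticOrderAt_comp_of_deriv_ne_zero (g := fun w => a * w + b) (by fun_prop)
        have : HasDerivAt (fun w => a * w + b) a z := by
          simpa using ((hasDerivAt_id z).const_mul a).add_const b
        rw [this.deriv]; exact ha
      have e4 : analyticOrderAt u (a * z + b) = analyticOrderAt φ 0 * analyticOrderAt u z := by
        rw [← e3, analyticOrderAt_congr e, e2]
      rw [← Nat.cast_analyticOrderNatAt (hfinu _ hLz), ← Nat.cast_analyticOrderNatAt (hfinu _ hz),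
        ← Nat.cast_analyticOrderNatAt hfin] at e4
      rw [← Nat.cast_analyticOrderNatAt hfin] at h2
      have e5 : analyticOrderNatAt u (a * z + b) = analyticOrderNatAt φ 0 * analyticOrderNatAt u z := by
        exact_mod_cast e4
      have h3 : 2 ≤ analyticOrderNatAt φ 0 := by exact_mod_cast h2
      rw [e5]; exact Nat.mul_le_mul_right _ h3
  have pos : ∀ z, Θ z = ∞ → 1 ≤ analyticOrderNatAt u z := by
    intro z hz
    obtain ⟨ua, u0, -⟩ := hu z hz
    have h1 := ua.analyticOrderAt_ne_zero.2 u0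
    rw [← Nat.cast_analyticOrderNatAt (hfinu _ hz)] at h1
    have : analyticOrderNatAt u z ≠ 0 := by exact_mod_cast h1
    omega
  -- boundedness of the orders
  have hper : ∀ z, ∀ l ∈ Λ.lattice, analyticOrderNatAt u (z + l) = analyticOrderNatAt u z := by
    intro z l hl
    have e : (u ∘ fun w => w + l) = u := by
      funext w; simp only [Function.comp_apply, u, per w l hl]
    have := analyticOrderAt_comp_of_deriv_ne_zero (f := u) (g := fun w => w + l) (z₀ := z)
      (by fun_prop) (by simp)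
    rw [e] at this
    unfold analyticOrderNatAt
    rw [this]
  let K : Set ℂ := Metric.closedBall 0 (∑ i, ‖Λ.basis i‖)
  have hK : IsCompact K := isCompact_closedBall _ _
  have hfinK : ({z | Θ z = ∞} ∩ K).Finite := by
    by_contra hinf
    obtain ⟨x, -, hx⟩ := Set.Infinite.exists_accPt_of_subset_isCompact hinf hK
      Set.inter_subset_right
    rw [accPt_iff_frequently_nhdsNE] at hx
    obtain ⟨w, h1, h3⟩ := (hx.and_eventually (iso x)).exists
    exact h3 h1.1
  obtain ⟨M, hM⟩ := (hfinK.image (analyticOrderNatAt u)).bddAbove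
  have bound : ∀ z, Θ z = ∞ → analyticOrderNatAt u z ≤ M := by
    intro z hz
    have hl : (ZSpan.floor Λ.basis z : ℂ) ∈ Λ.lattice := by
      rw [Λ.lattice_eq_span_range_basis]; exact (ZSpan.floor Λ.basis z).2
    have e : z = ZSpan.fract Λ.basis z + ZSpan.floor Λ.basis z := by
      rw [ZSpan.fract_apply]; ring
    rw [e, hper _ _ hl]
    apply hM
    refine ⟨_, ⟨?_, ?_⟩, rfl⟩
    · have := per (ZSpan.fract Λ.basis z) _ hl
      rw [← e, hz] at this
      exact this.symm
    · simpa [K] using ZSpan.norm_fract_le Λ.basis z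
  obtain ⟨z₀, hz₀⟩ := holo_hits hol per hne
  have grow : ∀ n : ℕ, ∃ z, Θ z = ∞ ∧ n + 1 ≤ analyticOrderNatAt u z := by
    intro n
    induction n with
    | zero => exact ⟨z₀, hz₀, pos _ hz₀⟩
    | succ n ih =>
      obtain ⟨z, hz, h⟩ := ih
      obtain ⟨h1, h3⟩ := step z hz
      exact ⟨_, h1, by omega⟩
  obtain ⟨z, hz, h⟩ := grow M
  have := bound z hz
  omega

theorem isRat_const_infty : IsRat 0 (fun _ : P1 => (∞ : P1)) := by
  refine isRat_iff.2 ⟨1, 0, ⟨by simp, by simp, fun z => by simp, by simp⟩, ?_⟩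
  funext x
  induction x using OnePoint.rec with
  | infty => simp [ratMap_infty, proj]
  | coe z => simp [ratMap_coe, proj]

theorem not_lattes_of_crit {d : ℕ} {f : P1 → P1} (hf : IsRat d f) (hd : d ≠ 0) (hx : f ∞ = ∞)
    (c : Crit f ∞) : ¬ IsLattes f := by
  obtain ⟨φ, r, h0⟩ := c
  rw [hx] at r
  refine not_lattes r h0 fun h => hd ?_
  rw [analyticOrderAt_eq_top] at h
  refine deg_eq_of_infinite hf isRat_const_infty ?_
  have h1 : ∀ᶠ t in 𝓝 (0 : ℂ), f (chart ∞ t) = ∞ := by
    filter_upwards [h, r.ev] with t h1 h2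
    rw [h2, h1, chart_zero]
  have h2 : {t : ℂ | f (chart ∞ t) = ∞}.Infinite := infinite_of_mem_nhds 0 h1
  have h3 := h2.image (f := chart ∞) (fun s _ t _ hst => chart_inj _ hst)
  refine h3.mono ?_
  rintro _ ⟨t, ht, rfl⟩
  exact ht

end Pool.Agent.H280Z.Mult
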