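import Pool.Agent.H280Z.Mult.Rat

set_option autoImplicit false

open Polynomial Filter Topology OnePoint

namespace Pool.Agent.H280Z.Mult

theorem chart_coe (z t : ℂ) : chart (z : P1) t = ((z + t : ℂ) : P1) := rfl
theorem chart_infty (t : ℂ) : chart ∞ t = proj 1 t := rfl

theorem chart_zero (x : P1) : chart x 0 = x := by
  induction x using OnePoint.rec with
  | infty => simp [chart_infty, proj]
  | coe z => simp [chart_coe]

theorem coord_chart (x : P1) (t : ℂ) : coord x (chart x t) = t := by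
  induction x using OnePoint.rec with
  | infty =>
    by_cases ht : t = 0
    · subst ht; simp [chart_infty, proj, coord]
    · simp [chart_infty, proj, coord, ht]
  | coe z => simp [chart_coe, coord]

theorem chart_inj (x : P1) {s t : ℂ} (h : chart x s = chart x t) : s = t := by
  rw [← coord_chart x s, h, coord_chart]

/-- local representation of `h` from the chart at `x` to the chart at `y` -/
structure Rep (h : P1 → P1) (x y : P1) (φ : ℂ → ℂ) : Prop where
  an : AnalyticAt ℂ φ 0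
  zero : φ 0 = 0
  ev : ∀ᶠ t in 𝓝 (0 : ℂ), h (chart x t) = chart y (φ t)

theorem Rep.apply {h : P1 → P1} {x y : P1} {φ : ℂ → ℂ} (r : Rep h x y φ) : h x = y := by
  have := r.ev.self_of_nhds
  rwa [chart_zero, r.zero, chart_zero] at this

theorem Rep.tendsto {h : P1 → P1} {x y : P1} {φ : ℂ → ℂ} (r : Rep h x y φ) :
    Tendsto φ (𝓝 0) (𝓝 0) := by
  have := r.an.continuousAt.tendsto
  rwa [r.zero] at this

theorem Rep.comp {h k : P1 → P1} {x y z : P1} {φ ψ : ℂ → ℂ} (r : Rep h x y φ) (s : Rep k y z ψ) :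
    Rep (k ∘ h) x z (ψ ∘ φ) where
  an := AnalyticAt.comp (by rw [r.zero]; exact s.an) r.an
  zero := by simp [r.zero, s.zero]
  ev := by
    filter_upwards [r.ev, r.tendsto.eventually s.ev] with t h1 h2
    rw [Function.comp_apply, h1, h2]; rfl

theorem Rep.unique {h : P1 → P1} {x y : P1} {φ ψ : ℂ → ℂ} (r : Rep h x y φ) (s : Rep h x y ψ) :
    φ =ᶠ[𝓝 0] ψ := by
  filter_upwards [r.ev, s.ev] with t h1 h2
  exact chart_inj y (h1.symm.trans h2)

theorem Rep.localForm {h : P1 → P1} {x : P1} {φ : ℂ → ℂ} (r : Rep h x x φ) :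
    localForm h x =ᶠ[𝓝 0] φ := by
  filter_upwards [r.ev] with t h1
  rw [Mult.localForm, h1, coord_chart]

theorem Rep.multiplier {h : P1 → P1} {x : P1} {φ : ℂ → ℂ} (r : Rep h x x φ) :
    multiplier h x = deriv φ 0 := r.localForm.deriv_eq

theorem Rep.fixMult {h : P1 → P1} {x : P1} {φ : ℂ → ℂ} (r : Rep h x x φ) :
    fixMult h x = analyticOrderNatAt (fun t => φ t - t) 0 := by
  unfold Mult.fixMult analyticOrderNatAt
  congr 1
  apply analyticOrderAt_congr
  filter_upwards [r.localForm] with t h1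
  rw [h1]

theorem exists_rep_aux {A B : ℂ → ℂ} (hA : AnalyticAt ℂ A 0) (hB : AnalyticAt ℂ B 0)
    (h : A 0 ≠ 0 ∨ B 0 ≠ 0) : ∃ φ : ℂ → ℂ, AnalyticAt ℂ φ 0 ∧ φ 0 = 0 ∧
      ∀ᶠ t in 𝓝 (0 : ℂ), proj (A t) (B t) = chart (proj (A 0) (B 0)) (φ t) := by
  by_cases hB0 : B 0 = 0
  · have hA0 : A 0 ≠ 0 := by tauto
    refine ⟨fun t => B t / A t, hB.div hA hA0, by simp [hB0], ?_⟩
    filter_upwards [hA.continuousAt.eventually_ne hA0] with t ht
    rw [hB0, proj_zero, chart_infty, ← proj_smul ht 1 (B t / A t)]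
    congr 1
    · simp
    · field_simp
  · refine ⟨fun t => A t / B t - A 0 / B 0, (hA.div hB hB0).sub analyticAt_const, by simp, ?_⟩
    filter_upwards [hB.continuousAt.eventually_ne hB0] with t ht
    rw [proj_of_ne _ ht, proj_of_ne _ hB0, chart_coe]
    congr 1; ring

theorem analyticAt_hom (d : ℕ) (p : ℂ[X]) {a b : ℂ → ℂ} {z : ℂ} (ha : AnalyticAt ℂ a z)
    (hb : AnalyticAt ℂ b z) : AnalyticAt ℂ (fun t => hom d p (a t) (b t)) z := by
  unfold hom
  exact Finset.analyticAt_fun_sum _ fun i _ => by fun_prop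

theorem IsRat.exists_rep {d : ℕ} {f : P1 → P1} (hf : IsRat d f) (x : P1) :
    ∃ φ, Rep f x (f x) φ := by
  obtain ⟨p, q, h, rfl⟩ := isRat_iff.1 hf
  have key : ∃ a b : ℂ → ℂ, AnalyticAt ℂ a 0 ∧ AnalyticAt ℂ b 0 ∧ (∀ t, a t ≠ 0 ∨ b t ≠ 0) ∧
      ∀ t, chart x t = proj (a t) (b t) := by
    induction x using OnePoint.rec with
    | infty => exact ⟨fun _ => 1, fun t => t, by fun_prop, by fun_prop,
        fun _ => Or.inl one_ne_zero, fun _ => rfl⟩
    | coe z => exact ⟨fun t => z + t, fun _ => 1, by fun_prop, by fun_prop,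
        fun _ => Or.inr one_ne_zero, fun t => by rw [proj_one]; rfl⟩
  obtain ⟨a, b, ha, hb, hab, hc⟩ := key
  obtain ⟨φ, h1, h2, h3⟩ := exists_rep_aux (analyticAt_hom d p ha hb) (analyticAt_hom d q ha hb)
    (h.hom_ne (hab 0))
  refine ⟨φ, h1, h2, ?_⟩
  filter_upwards [h3] with t ht
  have hx : ratMap d p q x = proj (hom d p (a 0) (b 0)) (hom d q (a 0) (b 0)) := by
    rw [← ratMap_proj h.hp h.hq (hab 0), ← hc, chart_zero]
  rw [hc, ratMap_proj h.hp h.hq (hab t), ht, hx]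

/-- the contribution of a fixed point to the spectrum -/
noncomputable def contrib (f : P1 → P1) (x : P1) : Multiset ℂ :=
  Multiset.replicate (fixMult f x) (multiplier f x)

/-- invariance under a local conjugacy -/
theorem contrib_conj {k h π : P1 → P1} {z x : P1} {φ₁ φ₂ ψ : ℂ → ℂ} (r₁ : Rep k z z φ₁)
    (r₂ : Rep h x x φ₂) (s : Rep π z x ψ) (hc : π ∘ k = h ∘ π)
    (u : ℂ → ℂ → ℂ) (hu : AnalyticAt ℂ (fun t => u (φ₁ t) t) 0) (hu0 : u 0 0 ≠ 0)
    (hd : HasDerivAt ψ (u 0 0) 0)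
    (hψ : ∀ᶠ t in 𝓝 (0 : ℂ), ψ (φ₁ t) - ψ t = (φ₁ t - t) * u (φ₁ t) t) :
    contrib k z = contrib h x := by
  have e : ψ ∘ φ₁ =ᶠ[𝓝 0] φ₂ ∘ ψ := (r₁.comp s).unique (hc ▸ s.comp r₂)
  have hm : deriv φ₁ 0 = deriv φ₂ 0 := by
    have h1 : HasDerivAt (ψ ∘ φ₁) (u 0 0 * deriv φ₁ 0) 0 :=
      HasDerivAt.comp 0 (by rw [r₁.zero]; exact hd) r₁.an.differentiableAt.hasDerivAt
    have h2 : HasDerivAt (φ₂ ∘ ψ) (deriv φ₂ 0 * u 0 0) 0 :=
      HasDerivAt.comp 0 (by rw [s.zero]; exact r₂.an.differentiableAt.hasDerivAt) hd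
    have h3 := e.deriv_eq
    rw [h1.deriv, h2.deriv, mul_comm] at h3
    exact mul_right_cancel₀ hu0 h3
  have ho : analyticOrderAt (fun t => φ₁ t - t) 0 = analyticOrderAt (fun t => φ₂ t - t) 0 := by
    have h1 := analyticOrderAt_comp_of_deriv_ne_zero (f := fun t => φ₂ t - t) s.an
      (by rw [hd.deriv]; exact hu0)
    rw [s.zero] at h1
    rw [← h1]
    have h2 : ((fun t => φ₂ t - t) ∘ ψ) =ᶠ[𝓝 0]
        (fun t => φ₁ t - t) * (fun t => u (φ₁ t) t) := by
      filter_upwards [e, hψ] with t h3 h4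
      simp only [Function.comp_apply, Pi.mul_apply] at h3 ⊢
      rw [← h3, h4]
    have ha : AnalyticAt ℂ (fun t => φ₁ t - t) 0 := r₁.an.sub analyticAt_id
    rw [analyticOrderAt_congr h2, analyticOrderAt_mul ha hu,
      hu.analyticOrderAt_eq_zero.2 (by simpa [r₁.zero] using hu0), add_zero]
  unfold contrib
  rw [r₁.multiplier, r₂.multiplier, r₁.fixMult, r₂.fixMult, hm]
  unfold analyticOrderNatAt
  rw [ho]

/-- critical points -/
def Crit (h : P1 → P1) (x : P1) : Prop := ∃ φ, Rep h x (h x) φ ∧ deriv φ 0 = 0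

theorem Crit.comp {h k : P1 → P1} {x : P1} {d : ℕ} (c : Crit h x) (hk : IsRat d k) :
    Crit (k ∘ h) x := by
  obtain ⟨φ, r, h0⟩ := c
  obtain ⟨ψ, s⟩ := hk.exists_rep (h x)
  refine ⟨ψ ∘ φ, r.comp s, ?_⟩
  rw [deriv_comp 0 (by rw [r.zero]; exact s.an.differentiableAt) r.an.differentiableAt, h0,
    mul_zero]

theorem Crit.contrib {h : P1 → P1} {x : P1} (c : Crit h x) (hx : h x = x) :
    contrib h x = {0} := by
  obtain ⟨φ, r, h0⟩ := c
  rw [hx] at r
  unfold Mult.contrib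
  rw [r.multiplier, r.fixMult, h0]
  have ha : AnalyticAt ℂ (fun t => φ t - t) 0 := r.an.sub analyticAt_id
  have h1 : analyticOrderAt (fun t => φ t - t) 0 = 1 := by
    apply ha.analyticOrderAt_eq_one_of_zero_deriv_ne_zero
    · simp [r.zero]
    · have : HasDerivAt (fun t => φ t - t) (deriv φ 0 - 1) 0 :=
        r.an.differentiableAt.hasDerivAt.sub (hasDerivAt_id 0)
      rw [this.deriv, h0]; norm_num
  unfold analyticOrderNatAt
  rw [h1]; rfl

theorem crit_coe {d : ℕ} {p q : ℂ[X]} {z : ℂ} (hq : q.eval z ≠ 0)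
    (hW : p.derivative.eval z * q.eval z = p.eval z * q.derivative.eval z) :
    Crit (ratMap d p q) (z : P1) := by
  have hA : AnalyticAt ℂ (fun t => p.eval (z + t)) 0 := by
    have : AnalyticAt ℂ (fun w => p.eval w) (z + 0) := p.differentiable.analyticAt _
    exact this.comp (f := fun t => z + t) (by fun_prop)
  have hB : AnalyticAt ℂ (fun t => q.eval (z + t)) 0 := by
    have : AnalyticAt ℂ (fun w => q.eval w) (z + 0) := q.differentiable.analyticAt _
    exact this.comp (f := fun t => z + t) (by fun_prop)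
  have hq0 : q.eval (z + 0) ≠ 0 := by simpa using hq
  refine ⟨fun t => p.eval (z + t) / q.eval (z + t) - p.eval z / q.eval z,
    ⟨(hA.div hB hq0).sub analyticAt_const, by simp, ?_⟩, ?_⟩
  · filter_upwards [hB.continuousAt.eventually_ne hq0] with t ht
    rw [chart_coe, ratMap_coe, ratMap_coe, proj_of_ne _ ht, proj_of_ne _ hq, chart_coe]
    congr 1; ring
  · have h1 : HasDerivAt (fun t => p.eval (z + t)) (p.derivative.eval z) 0 := by
      have := (p.hasDerivAt (z + 0)).comp_const_add z 0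
      simpa using this
    have h2 : HasDerivAt (fun t => q.eval (z + t)) (q.derivative.eval z) 0 := by
      have := (q.hasDerivAt (z + 0)).comp_const_add z 0
      simpa using this
    have h3 := (h1.div h2 hq0).sub_const (p.eval z / q.eval z)
    have h4 := h3.deriv
    simp only [add_zero] at h4
    rw [hW, sub_self, zero_div] at h4
    exact h4

end Pool.Agent.H280Z.Mult
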