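import Pool.Agent.H280Z.Mult.Lattes

set_option autoImplicit false

open Polynomial Filter Topology OnePoint

namespace Pool.Agent.H280Z.Mult

theorem hom_add (d : ℕ) (p q : ℂ[X]) (a b : ℂ) : hom d (p + q) a b = hom d p a b + hom d q a b := by
  simp [hom, add_mul, Finset.sum_add_distrib]

theorem hom_neg (d : ℕ) (p : ℂ[X]) (a b : ℂ) : hom d (-p) a b = -hom d p a b := by
  simp [hom, Finset.sum_neg_distrib]

theorem hom_sub (d : ℕ) (p q : ℂ[X]) (a b : ℂ) : hom d (p - q) a b = hom d p a b - hom d q a b := by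
  rw [sub_eq_add_neg, hom_add, hom_neg, sub_eq_add_neg]

theorem hom_mono {d k : ℕ} (hk : k ≤ d) (c a b : ℂ) :
    hom d (C c * X ^ k) a b = c * a ^ k * b ^ (d - k) := by
  rw [hom, Finset.sum_eq_single k]
  · simp
  · intro i _ hi; simp [coeff_X_pow, hi]
  · intro h; exact absurd (Finset.mem_range.2 (by omega)) h

theorem hom_C (d : ℕ) (c a b : ℂ) : hom d (C c) a b = c * b ^ d := by
  have := hom_mono (Nat.zero_le d) c a b
  simpa using this

noncomputable def pN : ℂ[X] := C 5 * X ^ 11 + C 11 * X ^ 3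
noncomputable def pD : ℂ[X] := C 11 * X ^ 8 + C 5
noncomputable def pn : ℂ[X] :=
  C 25 * X ^ 11 - C 275 * X ^ 9 + C 1100 * X ^ 7 - C 1804 * X ^ 5 + C 880 * X ^ 3
noncomputable def pd : ℂ[X] :=
  C 55 * X ^ 8 - C 440 * X ^ 6 + C 1100 * X ^ 4 - C 880 * X ^ 2 + C 256

theorem hom_pN (a b : ℂ) : hom 11 pN a b = 5 * a ^ 11 + 11 * a ^ 3 * b ^ 8 := by
  rw [pN, hom_add, hom_mono (by norm_num), hom_mono (by norm_num)]; simp

theorem hom_pD (a b : ℂ) : hom 11 pD a b = 11 * a ^ 8 * b ^ 3 + 5 * b ^ 11 := by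
  rw [pD, hom_add, hom_mono (by norm_num), hom_C]

theorem hom_pn (a b : ℂ) : hom 11 pn a b = 25 * a ^ 11 - 275 * a ^ 9 * b ^ 2 +
    1100 * a ^ 7 * b ^ 4 - 1804 * a ^ 5 * b ^ 6 + 880 * a ^ 3 * b ^ 8 := by
  rw [pn, hom_add, hom_sub, hom_add, hom_sub, hom_mono (by norm_num), hom_mono (by norm_num),
    hom_mono (by norm_num), hom_mono (by norm_num), hom_mono (by norm_num)]; simp

theorem hom_pd (a b : ℂ) : hom 11 pd a b = 55 * a ^ 8 * b ^ 3 - 440 * a ^ 6 * b ^ 5 +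
    1100 * a ^ 4 * b ^ 7 - 880 * a ^ 2 * b ^ 9 + 256 * b ^ 11 := by
  rw [pd, hom_add, hom_sub, hom_add, hom_sub, hom_mono (by norm_num), hom_mono (by norm_num),
    hom_mono (by norm_num), hom_mono (by norm_num), hom_C]

theorem deg_pN : pN.natDegree ≤ 11 := by unfold pN; compute_degree
theorem deg_pD : pD.natDegree ≤ 11 := by unfold pD; compute_degree; norm_num
theorem deg_pn : pn.natDegree ≤ 11 := by unfold pn; compute_degree
theorem deg_pd : pd.natDegree ≤ 11 := by unfold pd; compute_degree; norm_num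

theorem good_of_hom {d : ℕ} {p q : ℂ[X]} (hp : p.natDegree ≤ d) (hq : q.natDegree ≤ d)
    (h1 : ∀ z, hom d p z 1 ≠ 0 ∨ hom d q z 1 ≠ 0) (h2 : hom d p 1 0 ≠ 0 ∨ hom d q 1 0 ≠ 0) :
    Good d p q where
  hp := hp
  hq := hq
  ev z := by rw [← hom_one hp, ← hom_one hq]; exact h1 z
  top := by simpa [hom_zero] using h2

theorem good_F : Good 11 pN pD := by
  refine good_of_hom deg_pN deg_pD (fun z => ?_) (by rw [hom_pN]; left; norm_num)
  rw [hom_pN, hom_pD]
  by_contra h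
  push Not at h
  obtain ⟨h1, h2⟩ := h
  have h3 : z ^ 3 = 0 := by linear_combination (11 / 96) * h1 - (5 / 96) * z ^ 3 * h2
  have h4 : z = 0 := pow_eq_zero_iff (by norm_num) |>.1 h3
  rw [h4] at h2; norm_num at h2

theorem exists_lift (x : ℂ) : ∃ z : ℂ, z ≠ 0 ∧ z ^ 2 + 1 = x * z := by
  obtain ⟨s, hs⟩ := IsAlgClosed.exists_pow_nat_eq (x ^ 2 - 4) (n := 2) (by norm_num)
  refine ⟨(x + s) / 2, ?_, by linear_combination hs / 4⟩
  intro h
  have : s = -x := by linear_combination 2 * h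
  rw [this] at hs
  have : (4 : ℂ) = 0 := by linear_combination hs
  norm_num at this

theorem semi_n (a b : ℂ) : hom 11 pn (a ^ 2 + b ^ 2) (a * b) =
    hom 11 pN a b ^ 2 + hom 11 pD a b ^ 2 := by
  rw [hom_pn, hom_pN, hom_pD]; ring

theorem semi_d (a b : ℂ) : hom 11 pd (a ^ 2 + b ^ 2) (a * b) =
    hom 11 pN a b * hom 11 pD a b := by
  rw [hom_pd, hom_pN, hom_pD]; ring

theorem sq_ne {a b : ℂ} (h : a ≠ 0 ∨ b ≠ 0) : a ^ 2 + b ^ 2 ≠ 0 ∨ a * b ≠ 0 := by
  by_contra h0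
  push Not at h0
  obtain ⟨h1, h2⟩ := h0
  rcases mul_eq_zero.1 h2 with h3 | h3
  · have : b ^ 2 = 0 := by rw [h3] at h1; simpa using h1
    have h4 : b = 0 := pow_eq_zero_iff (by norm_num) |>.1 this
    tauto
  · have : a ^ 2 = 0 := by rw [h3] at h1; simpa using h1
    have h4 : a = 0 := pow_eq_zero_iff (by norm_num) |>.1 this
    tauto

theorem good_f : Good 11 pn pd := by
  refine good_of_hom deg_pn deg_pd (fun x => ?_) (by rw [hom_pn]; left; norm_num)
  obtain ⟨z, hz, hx⟩ := exists_lift x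
  have h1 := sq_ne (good_F.hom_ne (a := z) (b := 1) (Or.inl hz))
  rw [← semi_n, ← semi_d, one_pow, hx, mul_comm x z, hom_smul, hom_smul] at h1
  rcases h1 with h1 | h1
  · exact Or.inl (right_ne_zero_of_mul h1)
  · exact Or.inr (right_ne_zero_of_mul h1)

theorem good_g : Good 11 (-pn) pd where
  hp := by simpa using deg_pn
  hq := deg_pd
  ev z := by simpa using good_f.ev z
  top := by simpa using good_f.top

theorem hom2_num (a b : ℂ) : hom 2 (X ^ 2 + 1 : ℂ[X]) a b = a ^ 2 + b ^ 2 := by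
  simp [hom, Finset.sum_range_succ, coeff_one, coeff_X_pow]; ring

theorem hom2_den (a b : ℂ) : hom 2 (X : ℂ[X]) a b = a * b := by
  simp [hom, coeff_X]

theorem good_X : Good 2 (X ^ 2 + 1) X := by
  refine good_of_hom (by compute_degree) (by simp) (fun z => ?_) ?_
  · rw [hom2_num, hom2_den]; exact sq_ne (Or.inr one_ne_zero)
  · rw [hom2_num]; left; norm_num

theorem hom1_one (a b : ℂ) : hom 1 (1 : ℂ[X]) a b = b := by
  simp [hom, coeff_one]

theorem hom1_X (a b : ℂ) : hom 1 (X : ℂ[X]) a b = a := by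
  simp [hom, coeff_X]

theorem hom1_CX (c a b : ℂ) : hom 1 (C c * X : ℂ[X]) a b = c * a := by
  simp [hom, coeff_X]

theorem good_inv : Good 1 1 X := by
  refine good_of_hom (by simp) (by simp) (fun z => ?_) ?_
  · rw [hom1_one]; exact Or.inl one_ne_zero
  · rw [hom1_X]; exact Or.inr one_ne_zero

theorem good_rot {c : ℂ} (hc : c ≠ 0) : Good 1 (C c * X) 1 := by
  refine good_of_hom (by compute_degree) (by simp) (fun z => ?_) ?_
  · rw [hom1_one]; exact Or.inr one_ne_zero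
  · rw [hom1_CX]; left; simpa using hc

noncomputable def FF : P1 → P1 := ratMap 11 pN pD
noncomputable def ff : P1 → P1 := ratMap 11 pn pd
noncomputable def gg : P1 → P1 := ratMap 11 (-pn) pd
noncomputable def XX : P1 → P1 := ratMap 2 (X ^ 2 + 1) X
noncomputable def inv : P1 → P1 := ratMap 1 1 X
noncomputable def rot (c : ℂ) : P1 → P1 := ratMap 1 (C c * X) 1

theorem isRat_FF : IsRat 11 FF := isRat_iff.2 ⟨_, _, good_F, rfl⟩
theorem isRat_ff : IsRat 11 ff := isRat_iff.2 ⟨_, _, good_f, rfl⟩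
theorem isRat_gg : IsRat 11 gg := isRat_iff.2 ⟨_, _, good_g, rfl⟩
theorem isRat_XX : IsRat 2 XX := isRat_iff.2 ⟨_, _, good_X, rfl⟩
theorem isRat_inv : IsRat 1 inv := isRat_iff.2 ⟨_, _, good_inv, rfl⟩
theorem isRat_rot {c : ℂ} (hc : c ≠ 0) : IsRat 1 (rot c) := isRat_iff.2 ⟨_, _, good_rot hc, rfl⟩

theorem FF_proj {a b : ℂ} (h : a ≠ 0 ∨ b ≠ 0) :
    FF (proj a b) = proj (hom 11 pN a b) (hom 11 pD a b) := ratMap_proj deg_pN deg_pD h

theorem ff_proj {a b : ℂ} (h : a ≠ 0 ∨ b ≠ 0) :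
    ff (proj a b) = proj (hom 11 pn a b) (hom 11 pd a b) := ratMap_proj deg_pn deg_pd h

theorem gg_proj {a b : ℂ} (h : a ≠ 0 ∨ b ≠ 0) :
    gg (proj a b) = proj (-hom 11 pn a b) (hom 11 pd a b) := by
  rw [gg, ratMap_proj good_g.hp good_g.hq h, hom_neg]

theorem XX_proj {a b : ℂ} (h : a ≠ 0 ∨ b ≠ 0) :
    XX (proj a b) = proj (a ^ 2 + b ^ 2) (a * b) := by
  rw [XX, ratMap_proj good_X.hp good_X.hq h, hom2_num, hom2_den]

theorem inv_proj {a b : ℂ} (h : a ≠ 0 ∨ b ≠ 0) : inv (proj a b) = proj b a := by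
  rw [inv, ratMap_proj good_inv.hp good_inv.hq h, hom1_one, hom1_X]

theorem rot_proj (c : ℂ) {a b : ℂ} (h : a ≠ 0 ∨ b ≠ 0) : rot c (proj a b) = proj (c * a) b := by
  rw [rot, ratMap_proj (by compute_degree) (by simp) h, hom1_one, hom1_CX]

theorem rot_ne {c a b : ℂ} (hc : c ≠ 0) (h : a ≠ 0 ∨ b ≠ 0) : c * a ≠ 0 ∨ b ≠ 0 :=
  h.imp_left (mul_ne_zero hc)

theorem rot_coe (c z : ℂ) : rot c (z : P1) = ((c * z : ℂ) : P1) := by
  rw [← proj_one, rot_proj c (Or.inr one_ne_zero), proj_one]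

theorem rot_infty (c : ℂ) : rot c ∞ = ∞ := by
  rw [← proj_zero 1, rot_proj c (Or.inl one_ne_zero), proj_zero, proj_zero]

theorem semiconj (x : P1) : ff (XX x) = XX (FF x) := by
  obtain ⟨a, b, h, rfl⟩ := exists_proj x
  rw [XX_proj h, ff_proj (sq_ne h), FF_proj h, XX_proj (good_F.hom_ne h), semi_n, semi_d]

theorem XX_inv (x : P1) : XX (inv x) = XX x := by
  obtain ⟨a, b, h, rfl⟩ := exists_proj x
  rw [inv_proj h, XX_proj h, XX_proj h.symm, add_comm, mul_comm]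

theorem inv_inv' (x : P1) : inv (inv x) = x := by
  obtain ⟨a, b, h, rfl⟩ := exists_proj x
  rw [inv_proj h, inv_proj h.symm]

theorem neg_ne : (-1 : ℂ) ≠ 0 := by norm_num

theorem XX_neg (x : P1) : XX (rot (-1) x) = rot (-1) (XX x) := by
  obtain ⟨a, b, h, rfl⟩ := exists_proj x
  rw [rot_proj _ h, XX_proj h, XX_proj (rot_ne neg_ne h), rot_proj _ (sq_ne h),
    ← proj_smul neg_ne]
  congr 1 <;> ring

theorem gg_eq (x : P1) : gg x = rot (-1) (ff x) := by
  obtain ⟨a, b, h, rfl⟩ := exists_proj x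
  rw [gg_proj h, ff_proj h, rot_proj _ (good_f.hom_ne h), neg_one_mul]

theorem ff_neg (x : P1) : ff (rot (-1) x) = rot (-1) (ff x) := by
  obtain ⟨a, b, h, rfl⟩ := exists_proj x
  rw [rot_proj _ h, ff_proj h, ff_proj (rot_ne neg_ne h), rot_proj _ (good_f.hom_ne h),
    hom_pn, hom_pn, hom_pd, hom_pd]
  congr 1 <;> ring

theorem rot_rot (c e : ℂ) (x : P1) : rot c (rot e x) = rot (c * e) x := by
  induction x using OnePoint.rec with
  | infty => simp [rot_infty]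
  | coe z => simp [rot_coe, mul_assoc]

theorem rot_one (x : P1) : rot 1 x = x := by
  induction x using OnePoint.rec with
  | infty => simp [rot_infty]
  | coe z => simp [rot_coe]

theorem inv_rot {c e : ℂ} (hce : c * e = 1) (x : P1) : inv (rot c x) = rot e (inv x) := by
  obtain ⟨a, b, h, rfl⟩ := exists_proj x
  have hc : c ≠ 0 := left_ne_zero_of_mul_eq_one hce
  rw [rot_proj _ h, inv_proj h, inv_proj (rot_ne hc h), rot_proj _ h.symm, ← proj_smul hc (e * b),
    ← mul_assoc, hce, one_mul]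

theorem FF_rot {c : ℂ} (hc : c ^ 8 = 1) (x : P1) : FF (rot c x) = rot (c ^ 3) (FF x) := by
  obtain ⟨a, b, h, rfl⟩ := exists_proj x
  have hc0 : c ≠ 0 := by rintro rfl; norm_num at hc
  rw [rot_proj _ h, FF_proj h, FF_proj (rot_ne hc0 h), rot_proj _ (good_F.hom_ne h),
    hom_pN, hom_pN, hom_pD, hom_pD]
  congr 1
  · linear_combination 5 * a ^ 11 * c ^ 3 * hc
  · linear_combination 11 * a ^ 8 * b ^ 3 * hc

theorem FF_inv (x : P1) : FF (inv x) = inv (FF x) := by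
  obtain ⟨a, b, h, rfl⟩ := exists_proj x
  rw [inv_proj h, FF_proj h, FF_proj h.symm, inv_proj (good_F.hom_ne h),
    hom_pN, hom_pN, hom_pD, hom_pD]
  congr 1 <;> ring

theorem XX_eq_iff (x y : P1) : XX x = XX y ↔ y = x ∨ y = inv x := by
  obtain ⟨a, b, h, rfl⟩ := exists_proj x
  obtain ⟨c, e, k, rfl⟩ := exists_proj y
  rw [XX_proj h, XX_proj k, inv_proj h, proj_eq_proj (sq_ne h) (sq_ne k), proj_eq_proj k h,
    proj_eq_proj k h.symm, ← sub_eq_zero, ← sub_eq_zero (a := c * b), ← sub_eq_zero (a := c * a),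
    ← mul_eq_zero]
  constructor
  · intro h1; linear_combination -h1
  · intro h1; linear_combination -h1

theorem XX_coe {z : ℂ} (hz : z ≠ 0) : XX (z : P1) = ((z + z⁻¹ : ℂ) : P1) := by
  rw [← proj_one, XX_proj (Or.inr one_ne_zero), proj_of_ne _ (by simpa using hz)]
  congr 1; field_simp

theorem XX_zero : XX ((0 : ℂ) : P1) = ∞ := by
  rw [← proj_one, XX_proj (Or.inr one_ne_zero), proj_eq_infty]; simp

theorem XX_infty : XX ∞ = ∞ := by
  rw [← proj_zero 1, XX_proj (Or.inl one_ne_zero), mul_zero, proj_zero, proj_zero]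

theorem inv_coe {z : ℂ} (hz : z ≠ 0) : inv (z : P1) = ((z⁻¹ : ℂ) : P1) := by
  rw [← proj_one, inv_proj (Or.inr one_ne_zero), proj_of_ne _ hz, one_div]

theorem exists_XX (x : P1) : ∃ z : ℂ, XX (z : P1) = x := by
  induction x using OnePoint.rec with
  | infty => exact ⟨0, XX_zero⟩
  | coe x =>
    obtain ⟨z, hz, hx⟩ := exists_lift x
    refine ⟨z, ?_⟩
    rw [XX_coe hz]
    congr 1
    field_simp
    linear_combination hx

end Pool.Agent.H280Z.Mult
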