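import Pool.Agent.H280Z.Mult.Defs

set_option autoImplicit false

open Polynomial Filter Topology OnePoint

namespace Pool.Agent.H280Z.Mult

theorem proj_one (z : ℂ) : proj z 1 = (z : P1) := by simp [proj]

theorem proj_zero (a : ℂ) : proj a 0 = ∞ := by simp [proj]

theorem proj_of_ne {b : ℂ} (a : ℂ) (hb : b ≠ 0) : proj a b = ((a / b : ℂ) : P1) := by
  simp [proj, hb]

theorem proj_smul {c : ℂ} (hc : c ≠ 0) (a b : ℂ) : proj (c * a) (c * b) = proj a b := by
  by_cases hb : b = 0
  · simp [hb, proj]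
  · rw [proj_of_ne _ hb, proj_of_ne _ (mul_ne_zero hc hb), mul_div_mul_left _ _ hc]

theorem proj_eq_infty {a b : ℂ} : proj a b = ∞ ↔ b = 0 := by
  by_cases hb : b = 0
  · simp [hb, proj]
  · simp [proj, hb]

theorem proj_eq_coe {a b y : ℂ} (h : a ≠ 0 ∨ b ≠ 0) : proj a b = (y : P1) ↔ a = y * b := by
  by_cases hb : b = 0
  · have ha : a ≠ 0 := by tauto
    simp [hb, proj, ha]
  · rw [proj_of_ne _ hb, OnePoint.coe_eq_coe, div_eq_iff hb]

theorem proj_eq_proj {a b c e : ℂ} (h : a ≠ 0 ∨ b ≠ 0) (h' : c ≠ 0 ∨ e ≠ 0) :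
    proj a b = proj c e ↔ a * e = c * b := by
  by_cases he : e = 0
  · have hc : c ≠ 0 := by tauto
    subst he
    rw [proj_zero, proj_eq_infty]
    simp [hc]
  · rw [proj_of_ne _ he, proj_eq_coe h]
    constructor
    · intro h1; rw [h1]; field_simp
    · intro h1; field_simp; linear_combination h1

theorem exists_proj (x : P1) : ∃ a b : ℂ, (a ≠ 0 ∨ b ≠ 0) ∧ x = proj a b := by
  induction x using OnePoint.rec with
  | infty => exact ⟨1, 0, Or.inl one_ne_zero, (proj_zero 1).symm⟩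
  | coe z => exact ⟨z, 1, Or.inr one_ne_zero, (proj_one z).symm⟩

/-- binary form -/
noncomputable def hom (d : ℕ) (p : ℂ[X]) (a b : ℂ) : ℂ :=
  ∑ i ∈ Finset.range (d + 1), p.coeff i * a ^ i * b ^ (d - i)

theorem hom_one {d : ℕ} {p : ℂ[X]} (hp : p.natDegree ≤ d) (z : ℂ) : hom d p z 1 = p.eval z := by
  rw [hom, eval_eq_sum_range' (Nat.lt_succ_of_le hp)]
  simp

theorem hom_zero (d : ℕ) (p : ℂ[X]) (a : ℂ) : hom d p a 0 = p.coeff d * a ^ d := by
  rw [hom, Finset.sum_range_succ, Finset.sum_eq_zero]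
  · simp
  · intro i hi
    have : d - i ≠ 0 := by have := Finset.mem_range.1 hi; omega
    simp [this]

theorem hom_smul (d : ℕ) (p : ℂ[X]) (c a b : ℂ) :
    hom d p (c * a) (c * b) = c ^ d * hom d p a b := by
  rw [hom, hom, Finset.mul_sum]
  refine Finset.sum_congr rfl fun i hi => ?_
  have hi' : i ≤ d := by have := Finset.mem_range.1 hi; omega
  have : c ^ d = c ^ i * c ^ (d - i) := by rw [← pow_add]; congr 1; omega
  rw [this, mul_pow, mul_pow]; ring

theorem hom_of_ne {d : ℕ} {p : ℂ[X]} (hp : p.natDegree ≤ d) (a : ℂ) {b : ℂ} (hb : b ≠ 0) :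
    hom d p a b = b ^ d * p.eval (a / b) := by
  rw [← hom_one hp, ← hom_smul]
  congr 1
  · field_simp
  · simp

theorem ratMap_coe (d : ℕ) (p q : ℂ[X]) (z : ℂ) :
    ratMap d p q (z : P1) = proj (p.eval z) (q.eval z) := rfl

theorem ratMap_infty (d : ℕ) (p q : ℂ[X]) :
    ratMap d p q ∞ = proj (p.coeff d) (q.coeff d) := rfl

theorem ratMap_proj {d : ℕ} {p q : ℂ[X]} (hp : p.natDegree ≤ d) (hq : q.natDegree ≤ d)
    {a b : ℂ} (h : a ≠ 0 ∨ b ≠ 0) :
    ratMap d p q (proj a b) = proj (hom d p a b) (hom d q a b) := by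
  by_cases hb : b = 0
  · have ha : a ≠ 0 := by tauto
    subst hb
    rw [proj_zero, ratMap_infty, hom_zero, hom_zero, mul_comm (p.coeff d), mul_comm (q.coeff d),
      proj_smul (pow_ne_zero _ ha)]
  · rw [proj_of_ne _ hb, ratMap_coe, hom_of_ne hp _ hb, hom_of_ne hq _ hb,
      proj_smul (pow_ne_zero _ hb)]

/-- good pairs -/
structure Good (d : ℕ) (p q : ℂ[X]) : Prop where
  hp : p.natDegree ≤ d
  hq : q.natDegree ≤ d
  ev : ∀ z, p.eval z ≠ 0 ∨ q.eval z ≠ 0
  top : p.coeff d ≠ 0 ∨ q.coeff d ≠ 0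

theorem good_iff {d : ℕ} {p q : ℂ[X]} :
    Good d p q ↔ IsCoprime p q ∧ max p.natDegree q.natDegree = d := by
  constructor
  · intro h
    refine ⟨(Polynomial.isCoprime_iff_aeval_ne_zero_of_isAlgClosed ℂ ℂ p q).2 ?_, ?_⟩
    · intro z; simpa using h.ev z
    · apply le_antisymm (max_le h.hp h.hq)
      rcases h.top with h1 | h1
      · exact le_max_of_le_left (le_natDegree_of_ne_zero h1)
      · exact le_max_of_le_right (le_natDegree_of_ne_zero h1)
  · rintro ⟨hc, hd⟩
    refine ⟨hd ▸ le_max_left _ _, hd ▸ le_max_right _ _, ?_, ?_⟩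
    · intro z
      simpa using (Polynomial.isCoprime_iff_aeval_ne_zero_of_isAlgClosed ℂ ℂ p q).1 hc z
    · by_cases hp0 : p = 0
      · subst hp0
        have hq : q ≠ 0 := by
          rintro rfl; exact not_isCoprime_zero_zero hc
        right
        have : q.natDegree = d := by simpa using hd
        rw [← this]; exact leadingCoeff_ne_zero.2 hq
      by_cases hq0 : q = 0
      · subst hq0
        left
        have : p.natDegree = d := by simpa using hd
        rw [← this]; exact leadingCoeff_ne_zero.2 hp0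
      rcases le_total p.natDegree q.natDegree with h1 | h1
      · right
        rw [max_eq_right h1] at hd
        rw [← hd]; exact leadingCoeff_ne_zero.2 hq0
      · left
        rw [max_eq_left h1] at hd
        rw [← hd]; exact leadingCoeff_ne_zero.2 hp0

theorem isRat_iff {d : ℕ} {f : P1 → P1} : IsRat d f ↔ ∃ p q, Good d p q ∧ f = ratMap d p q := by
  constructor
  · rintro ⟨p, q, h1, h2, h3⟩; exact ⟨p, q, good_iff.2 ⟨h1, h2⟩, h3⟩
  · rintro ⟨p, q, h1, h3⟩; exact ⟨p, q, (good_iff.1 h1).1, (good_iff.1 h1).2, h3⟩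

theorem Good.hom_ne {d : ℕ} {p q : ℂ[X]} (h : Good d p q) {a b : ℂ} (hab : a ≠ 0 ∨ b ≠ 0) :
    hom d p a b ≠ 0 ∨ hom d q a b ≠ 0 := by
  by_cases hb : b = 0
  · have ha : a ≠ 0 := by tauto
    subst hb
    rw [hom_zero, hom_zero]
    rcases h.top with h1 | h1
    · exact Or.inl (mul_ne_zero h1 (pow_ne_zero _ ha))
    · exact Or.inr (mul_ne_zero h1 (pow_ne_zero _ ha))
  · rw [hom_of_ne h.hp _ hb, hom_of_ne h.hq _ hb]
    rcases h.ev (a / b) with h1 | h1
    · exact Or.inl (mul_ne_zero (pow_ne_zero _ hb) h1)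
    · exact Or.inr (mul_ne_zero (pow_ne_zero _ hb) h1)

/-- polynomial version of `hom` -/
noncomputable def homP (d : ℕ) (p u v : ℂ[X]) : ℂ[X] :=
  ∑ i ∈ Finset.range (d + 1), C (p.coeff i) * u ^ i * v ^ (d - i)

theorem eval_homP (d : ℕ) (p u v : ℂ[X]) (z : ℂ) :
    (homP d p u v).eval z = hom d p (u.eval z) (v.eval z) := by
  simp [homP, hom, eval_finsetSum]

theorem natDegree_term {d e i : ℕ} (hi : i ≤ d) (c : ℂ) {u v : ℂ[X]} (hu : u.natDegree ≤ e)
    (hv : v.natDegree ≤ e) : (C c * u ^ i * v ^ (d - i)).natDegree ≤ d * e := by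
  have h1 : (u ^ i).natDegree ≤ i * e := natDegree_pow_le_of_le i hu
  have h2 : (v ^ (d - i)).natDegree ≤ (d - i) * e := natDegree_pow_le_of_le _ hv
  have h3 : (C c * u ^ i).natDegree ≤ i * e := (natDegree_C_mul_le _ _).trans h1
  have h4 : d * e = i * e + (d - i) * e := by rw [← add_mul]; congr 1; omega
  rw [h4]
  exact natDegree_mul_le_of_le h3 h2

theorem natDegree_homP (d : ℕ) (p : ℂ[X]) {e : ℕ} {u v : ℂ[X]} (hu : u.natDegree ≤ e)
    (hv : v.natDegree ≤ e) : (homP d p u v).natDegree ≤ d * e := by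
  refine natDegree_sum_le_of_forall_le _ _ fun i hi => ?_
  exact natDegree_term (by have := Finset.mem_range.1 hi; omega) _ hu hv

theorem coeff_homP (d : ℕ) (p : ℂ[X]) {e : ℕ} {u v : ℂ[X]} (hu : u.natDegree ≤ e)
    (hv : v.natDegree ≤ e) :
    (homP d p u v).coeff (d * e) = hom d p (u.coeff e) (v.coeff e) := by
  rw [homP, hom, finsetSum_coeff]
  refine Finset.sum_congr rfl fun i hi => ?_
  have hi' : i ≤ d := by have := Finset.mem_range.1 hi; omega
  have h1 : (u ^ i).natDegree ≤ i * e := natDegree_pow_le_of_le i hu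
  have h2 : (v ^ (d - i)).natDegree ≤ (d - i) * e := natDegree_pow_le_of_le _ hv
  have h4 : d * e = i * e + (d - i) * e := by rw [← add_mul]; congr 1; omega
  rw [mul_assoc, coeff_C_mul, h4, coeff_mul_add_eq_of_natDegree_le h1 h2,
    coeff_pow_of_natDegree_le hu, coeff_pow_of_natDegree_le hv, mul_assoc]

theorem Good.comp {d e : ℕ} {p q u v : ℂ[X]} (h : Good d p q) (k : Good e u v) :
    Good (d * e) (homP d p u v) (homP d q u v) where
  hp := natDegree_homP _ _ k.hp k.hq
  hq := natDegree_homP _ _ k.hp k.hq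
  ev z := by rw [eval_homP, eval_homP]; exact h.hom_ne (k.ev z)
  top := by rw [coeff_homP _ _ k.hp k.hq, coeff_homP _ _ k.hp k.hq]; exact h.hom_ne k.top

theorem Good.comp_eq {d e : ℕ} {p q u v : ℂ[X]} (h : Good d p q) (k : Good e u v) :
    ratMap d p q ∘ ratMap e u v = ratMap (d * e) (homP d p u v) (homP d q u v) := by
  funext x
  induction x using OnePoint.rec with
  | infty =>
    rw [Function.comp_apply, ratMap_infty, ratMap_proj h.hp h.hq k.top, ratMap_infty,
      coeff_homP _ _ k.hp k.hq, coeff_homP _ _ k.hp k.hq]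
  | coe z =>
    rw [Function.comp_apply, ratMap_coe, ratMap_proj h.hp h.hq (k.ev z), ratMap_coe,
      eval_homP, eval_homP]

theorem IsRat.comp {d e : ℕ} {f g : P1 → P1} (hf : IsRat d f) (hg : IsRat e g) :
    IsRat (d * e) (f ∘ g) := by
  obtain ⟨p, q, h, rfl⟩ := isRat_iff.1 hf
  obtain ⟨u, v, k, rfl⟩ := isRat_iff.1 hg
  exact isRat_iff.2 ⟨_, _, h.comp k, h.comp_eq k⟩

theorem isRat_id : IsRat 1 (id : P1 → P1) := by
  refine isRat_iff.2 ⟨X, 1, ⟨by simp, by simp, fun z => by simp, by simp⟩, ?_⟩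
  funext x
  induction x using OnePoint.rec with
  | infty => simp [ratMap_infty, proj, coeff_one]
  | coe z => simp [ratMap_coe, proj_one]

theorem IsRat.iterate {d : ℕ} {f : P1 → P1} (hf : IsRat d f) (n : ℕ) : IsRat (d ^ n) f^[n] := by
  induction n with
  | zero => simpa using isRat_id
  | succ n ih => rw [Function.iterate_succ, pow_succ]; exact ih.comp hf

/-- two rational maps agreeing on an infinite set have the same degree -/
theorem deg_eq_of_infinite {d e : ℕ} {f g : P1 → P1} (hf : IsRat d f) (hg : IsRat e g)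
    (h : {x | f x = g x}.Infinite) : d = e := by
  obtain ⟨p, q, hpq, rfl⟩ := isRat_iff.1 hf
  obtain ⟨u, v, huv, rfl⟩ := isRat_iff.1 hg
  have hinf : {z : ℂ | IsRoot (p * v - u * q) z}.Infinite := by
    have h1 : ({x | ratMap d p q x = ratMap e u v x} \ {∞}).Infinite :=
      h.sdiff (Set.finite_singleton _)
    have h2 : ({x | ratMap d p q x = ratMap e u v x} \ {∞}) ⊆
        ((↑) : ℂ → P1) '' {z : ℂ | IsRoot (p * v - u * q) z} := by
      rintro x ⟨hx, hx'⟩
      induction x using OnePoint.rec with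
      | infty => exact absurd rfl hx'
      | coe z =>
        refine ⟨z, ?_, rfl⟩
        have hx1 : proj (p.eval z) (q.eval z) = proj (u.eval z) (v.eval z) := hx
        rw [proj_eq_proj (hpq.ev z) (huv.ev z)] at hx1
        simp [IsRoot, hx1]
    exact Set.Infinite.of_image _ (h1.mono h2)
  have h0 : p * v = u * q := sub_eq_zero.1 (eq_zero_of_infinite_isRoot _ hinf)
  obtain ⟨c1, d1⟩ := good_iff.1 hpq
  obtain ⟨c2, d2⟩ := good_iff.1 huv
  have a1 : p ∣ u := c1.dvd_of_dvd_mul_right ⟨v, h0.symm⟩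
  have a2 : u ∣ p := c2.dvd_of_dvd_mul_right ⟨q, h0⟩
  have a3 : q ∣ v := c1.symm.dvd_of_dvd_mul_left ⟨u, by rw [h0]; ring⟩
  have a4 : v ∣ q := c2.symm.dvd_of_dvd_mul_left ⟨p, by rw [← h0]; ring⟩
  rw [← d1, ← d2, natDegree_eq_of_degree_eq (degree_eq_degree_of_associated
    (associated_of_dvd_dvd a1 a2)), natDegree_eq_of_degree_eq (degree_eq_degree_of_associated
    (associated_of_dvd_dvd a3 a4))]

theorem IsRat.deg_unique {d e : ℕ} {f : P1 → P1} (hf : IsRat d f) (hg : IsRat e f) : d = e :=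
  deg_eq_of_infinite hf hg (by simpa using Set.infinite_univ)

theorem IsRat.finite_fixed {d : ℕ} {f : P1 → P1} (hf : IsRat d f) (hd : d ≠ 1) :
    (Function.fixedPoints f).Finite := by
  by_contra h
  exact hd (deg_eq_of_infinite hf isRat_id h)

theorem IsRat.bijective {μ : P1 → P1} (h : IsRat 1 μ) : Function.Bijective μ := by
  obtain ⟨p, q, hpq, rfl⟩ := isRat_iff.1 h
  have hh : ∀ (r : ℂ[X]) (a b : ℂ), hom 1 r a b = r.coeff 1 * a + r.coeff 0 * b := by
    intro r a b; simp [hom, Finset.sum_range_succ]; ring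
  set α := p.coeff 1
  set β := p.coeff 0
  set γ := q.coeff 1
  set δ := q.coeff 0
  have hdet : α * δ - β * γ ≠ 0 := by
    intro h0
    by_cases h1 : α ≠ 0 ∨ β ≠ 0
    · have := hpq.hom_ne (a := -β) (b := α) (by simpa [or_comm] using h1)
      rw [hh, hh] at this
      rcases this with h2 | h2
      · exact h2 (by ring)
      · exact h2 (by linear_combination h0)
    · push Not at h1
      by_cases h3 : γ ≠ 0 ∨ δ ≠ 0
      · have := hpq.hom_ne (a := -δ) (b := γ) (by simpa [or_comm] using h3)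
        rw [hh, hh] at this
        rcases this with h2 | h2
        · exact h2 (by linear_combination -h0)
        · exact h2 (by ring)
      · push Not at h3
        rcases hpq.top with h2 | h2
        · exact h2 h1.1
        · exact h2 h3.1
  constructor
  · intro x y hxy
    obtain ⟨a, b, hab, rfl⟩ := exists_proj x
    obtain ⟨c, e, hce, rfl⟩ := exists_proj y
    rw [ratMap_proj hpq.hp hpq.hq hab, ratMap_proj hpq.hp hpq.hq hce,
      proj_eq_proj (hpq.hom_ne hab) (hpq.hom_ne hce), hh, hh, hh, hh] at hxy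
    rw [proj_eq_proj hab hce]
    apply mul_left_cancel₀ hdet
    linear_combination hxy
  · intro y
    obtain ⟨c, e, hce, rfl⟩ := exists_proj y
    have hab : δ * c - β * e ≠ 0 ∨ -γ * c + α * e ≠ 0 := by
      by_contra h0
      push Not at h0
      rcases hce with h2 | h2
      · exact (mul_ne_zero hdet h2) (by linear_combination α * h0.1 + β * h0.2)
      · exact (mul_ne_zero hdet h2) (by linear_combination γ * h0.1 + δ * h0.2)
    refine ⟨proj (δ * c - β * e) (-γ * c + α * e), ?_⟩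
    rw [ratMap_proj hpq.hp hpq.hq hab, proj_eq_proj (hpq.hom_ne hab) hce, hh, hh]
    ring

end Pool.Agent.H280Z.Mult
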