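import Pool.Agent.H280Z.Mult.Sum

set_option autoImplicit false

open Polynomial Filter Topology OnePoint

namespace Pool.Agent.H280Z.Mult

theorem eval_pn (y : ℂ) : pn.eval y =
    25 * y ^ 11 - 275 * y ^ 9 + 1100 * y ^ 7 - 1804 * y ^ 5 + 880 * y ^ 3 := by simp [pn]

theorem eval_pd (y : ℂ) : pd.eval y =
    55 * y ^ 8 - 440 * y ^ 6 + 1100 * y ^ 4 - 880 * y ^ 2 + 256 := by simp [pd]

theorem eval_dpn (y : ℂ) : pn.derivative.eval y =
    275 * y ^ 10 - 2475 * y ^ 8 + 7700 * y ^ 6 - 9020 * y ^ 4 + 2640 * y ^ 2 := by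
  simp [pn]; ring

theorem eval_dpd (y : ℂ) : pd.derivative.eval y =
    440 * y ^ 7 - 2640 * y ^ 5 + 4400 * y ^ 3 - 1760 * y := by
  simp [pd]; ring

theorem ff_coe (y : ℂ) : ff (y : P1) = proj (pn.eval y) (pd.eval y) := rfl

theorem ff_infty : ff ∞ = ∞ := by
  rw [← proj_zero 1, ff_proj (Or.inl one_ne_zero), hom_pd]
  simp [proj_zero]

theorem pows (y s : ℂ) (h : y ^ 2 = s) : y ^ 3 = s * y ∧ y ^ 4 = s ^ 2 ∧ y ^ 5 = s ^ 2 * y ∧
    y ^ 6 = s ^ 3 ∧ y ^ 7 = s ^ 3 * y ∧ y ^ 8 = s ^ 4 ∧ y ^ 9 = s ^ 4 * y ∧ y ^ 10 = s ^ 5 ∧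
    y ^ 11 = s ^ 5 * y := by
  subst h
  refine ⟨?_, ?_, ?_, ?_, ?_, ?_, ?_, ?_, ?_⟩ <;> ring

theorem pd_special {y : ℂ} (h : y = 0 ∨ y ^ 2 = 2 ∨ y ^ 2 = 4) : pd.eval y = 256 := by
  rw [eval_pd]
  rcases h with h | h | h
  · subst h; norm_num
  · obtain ⟨h3, h4, h5, h6, h7, h8, h9, h10, h11⟩ := pows y 2 h
    rw [h8, h6, h4, h]; norm_num
  · obtain ⟨h3, h4, h5, h6, h7, h8, h9, h10, h11⟩ := pows y 4 h
    rw [h8, h6, h4, h]; norm_num

theorem ff_zero : ff ((0 : ℂ) : P1) = ((0 : ℂ) : P1) := by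
  rw [ff_coe, pd_special (Or.inl rfl), eval_pn, proj_of_ne _ (by norm_num)]
  congr 1; norm_num

theorem ff_two {y : ℂ} (h : y ^ 2 = 2) : ff (y : P1) = ((-y : ℂ) : P1) := by
  rw [ff_coe, pd_special (Or.inr (Or.inl h)), eval_pn, proj_of_ne _ (by norm_num)]
  obtain ⟨h3, h4, h5, h6, h7, h8, h9, h10, h11⟩ := pows y 2 h
  rw [h11, h9, h7, h5, h3]
  congr 1; ring

theorem ff_four {y : ℂ} (h : y ^ 2 = 4) : ff (y : P1) = (y : P1) := by
  rw [ff_coe, pd_special (Or.inr (Or.inr h)), eval_pn, proj_of_ne _ (by norm_num)]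
  obtain ⟨h3, h4, h5, h6, h7, h8, h9, h10, h11⟩ := pows y 4 h
  rw [h11, h9, h7, h5, h3]
  congr 1; ring

theorem crit_special {y : ℂ} (h : y = 0 ∨ y ^ 2 = 2 ∨ y ^ 2 = 4) : Crit ff (y : P1) := by
  refine crit_coe (by rw [pd_special h]; norm_num) ?_
  rw [pd_special h, eval_pn, eval_dpn, eval_dpd]
  rcases h with h | h | h
  · subst h; norm_num
  · obtain ⟨h3, h4, h5, h6, h7, h8, h9, h10, h11⟩ := pows y 2 h
    rw [h11, h10, h9, h8, h7, h6, h5, h4, h3, h]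
    ring
  · obtain ⟨h3, h4, h5, h6, h7, h8, h9, h10, h11⟩ := pows y 4 h
    rw [h11, h10, h9, h8, h7, h6, h5, h4, h3, h]
    linear_combination (-256 * 1760) * h

theorem crit_infty : Crit ff ∞ := by
  have hA : AnalyticAt ℂ (fun t : ℂ => hom 11 pn 1 t) 0 :=
    analyticAt_hom _ _ analyticAt_const analyticAt_id
  have hA0 : hom 11 pn 1 0 ≠ 0 := by rw [hom_pn]; norm_num
  let B : ℂ → ℂ := fun t => (55 * t - 440 * t ^ 3 + 1100 * t ^ 5 - 880 * t ^ 7 + 256 * t ^ 9) /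
    hom 11 pn 1 t
  have hB : AnalyticAt ℂ B 0 := AnalyticAt.div (by fun_prop) hA hA0
  refine ⟨fun t => t ^ 2 * B t, ⟨AnalyticAt.mul (by fun_prop) hB, by simp, ?_⟩, ?_⟩
  · filter_upwards [hA.continuousAt.eventually_ne hA0] with t ht
    rw [ff_infty, chart_infty, chart_infty, ff_proj (Or.inl one_ne_zero),
      ← proj_smul ht 1 (t ^ 2 * B t)]
    congr 1
    · simp
    · simp only [B]
      rw [hom_pd]
      field_simp
  · have h1 : HasDerivAt (fun t : ℂ => t ^ 2) 0 0 := by simpa using hasDerivAt_pow 2 (0 : ℂ)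
    have h2 : HasDerivAt (fun t : ℂ => t ^ 2 * B t) (0 * B 0 + 0 ^ 2 * deriv B 0) 0 :=
      h1.mul hB.differentiableAt.hasDerivAt
    rw [h2.deriv]; simp

theorem not_mem_VV {x : P1} : x ∉ VV ↔
    x = ∞ ∨ ∃ y : ℂ, x = (y : P1) ∧ (y = 0 ∨ y ^ 2 = 2 ∨ y ^ 2 = 4) := by
  induction x using OnePoint.rec with
  | infty =>
    simp only [true_or, iff_true]
    rintro ⟨y, hy, -⟩; exact absurd hy (OnePoint.infty_ne_coe _)
  | coe x =>
    simp only [VV, Set.mem_ofPred_eq, OnePoint.coe_eq_coe, exists_eq_left', OnePoint.coe_ne_infty,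
      false_or]
    tauto

theorem crit_of_not_mem {x : P1} (h : x ∉ VV) : Crit ff x := by
  rcases not_mem_VV.1 h with rfl | ⟨y, rfl, hy⟩
  · exact crit_infty
  · exact crit_special hy

theorem ff_ff_ff {x : P1} (h : x ∉ VV) : ff (ff (ff x)) = ff x := by
  rcases not_mem_VV.1 h with rfl | ⟨y, rfl, hy | hy | hy⟩
  · simp [ff_infty]
  · subst hy; simp [ff_zero]
  · have h1 : (-y) ^ 2 = 2 := by rw [neg_sq, hy]
    rw [ff_two hy, ff_two h1, neg_neg, ff_two hy]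
  · rw [ff_four hy, ff_four hy, ff_four hy]

theorem iter_odd {x : P1} (h : x ∉ VV) (m : ℕ) : ff^[2 * m + 1] x = ff x := by
  rw [Function.iterate_succ_apply, Function.iterate_mul]
  exact Function.iterate_fixed (ff_ff_ff h) m

theorem iter_neg (n : ℕ) (x : P1) : ff^[n] (rot (-1) x) = rot (-1) (ff^[n] x) :=
  (Function.Semiconj.iterate_right (f := rot (-1)) (ga := ff) (gb := ff)
    (fun x => (ff_neg x).symm) n x).symm

theorem gg_two (x : P1) : gg (gg x) = ff (ff x) := by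
  rw [gg_eq, gg_eq, ff_neg, rot_rot]; simp [rot_one]

theorem gg_even (m : ℕ) : gg^[2 * m] = ff^[2 * m] := by
  have : gg^[2] = ff^[2] := funext gg_two
  rw [Function.iterate_mul, Function.iterate_mul, this]

theorem gg_odd (m : ℕ) : gg^[2 * m + 1] = rot (-1) ∘ ff^[2 * m + 1] := by
  funext x
  rw [Function.iterate_succ_apply, gg_even, gg_eq, iter_neg]; rfl

theorem FF_odd (m : ℕ) (c : ℂ) (hc : c ^ 8 = 1) (x : P1) :
    FF^[2 * m + 1] (rot c x) = rot (c ^ 3) (FF^[2 * m + 1] x) := by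
  have h3 : (c ^ 3) ^ 8 = 1 := by rw [← pow_mul, mul_comm, pow_mul, hc, one_pow]
  have h9 : ∀ e : ℂ, e ^ 8 = 1 → ∀ y, FF^[2] (rot e y) = rot e (FF^[2] y) := by
    intro e he y
    have h4 : (e ^ 3) ^ 8 = 1 := by rw [← pow_mul, mul_comm, pow_mul, he, one_pow]
    show FF (FF (rot e y)) = rot e (FF (FF y))
    rw [FF_rot he, FF_rot h4]
    congr 1
    linear_combination e * he
  rw [Function.iterate_succ_apply, Function.iterate_succ_apply, FF_rot hc, Function.iterate_mul]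
  exact (Function.Semiconj.iterate_right (f := rot (c ^ 3)) (ga := FF^[2]) (gb := FF^[2])
    (fun y => (h9 _ h3 y).symm) m _).symm

theorem semiconj_iter (n : ℕ) : XX ∘ FF^[n] = ff^[n] ∘ XX :=
  funext (Function.Semiconj.iterate_right (f := XX) (ga := FF) (gb := ff)
    (fun x => (semiconj x).symm) n)

theorem split {d : ℕ} {h : P1 → P1} (hh : IsRat d h) (hd : d ≠ 1) :
    (∑ᶠ x ∈ Function.fixedPoints h, contrib h x) =
      (∑ᶠ x ∈ Function.fixedPoints h ∩ VV, contrib h x) +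
        ∑ᶠ x ∈ Function.fixedPoints h \ VV, contrib h x := by
  have hf := hh.finite_fixed hd
  rw [← finsum_mem_union (Set.disjoint_sdiff_right.mono_left Set.inter_subset_right)
    (hf.subset Set.inter_subset_left) (hf.subset Set.sdiff_subset), Set.inter_union_sdiff]

theorem spec_eq (n : ℕ) : spec ff n = spec gg n := by
  rcases Nat.even_or_odd' n with ⟨m, rfl | rfl⟩
  · unfold spec; rw [gg_even]
  have hd : 11 ^ (2 * m + 1) ≠ 1 := by
    have := Nat.one_lt_pow (n := 2 * m + 1) (a := 11) (by omega) (by norm_num)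
    omega
  have hh := isRat_ff.iterate (2 * m + 1)
  have hh' : IsRat (1 * 11 ^ (2 * m + 1)) (rot (-1) ∘ ff^[2 * m + 1]) :=
    (isRat_rot neg_ne).comp hh
  show (∑ᶠ x ∈ Function.fixedPoints ff^[2 * m + 1], contrib ff^[2 * m + 1] x) =
    ∑ᶠ x ∈ Function.fixedPoints gg^[2 * m + 1], contrib gg^[2 * m + 1] x
  rw [gg_odd, split hh hd, split hh' (by rwa [one_mul]),
    ordinary_eq (isRat_FF.iterate _) hh hd (semiconj_iter _) (FF_odd m)]
  congr 1
  obtain ⟨r, hr⟩ := IsAlgClosed.exists_pow_nat_eq (1 / 2 : ℂ) (n := 2) (by norm_num)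
  have hr0 : r ≠ 0 := by rintro rfl; norm_num at hr
  have crit : ∀ x, x ∉ VV → Crit ff^[2 * m + 1] x := fun x hx =>
    (crit_of_not_mem hx).comp (isRat_ff.iterate (2 * m))
  have m1 : ∀ x, x ∈ Function.fixedPoints ff^[2 * m + 1] \ VV ↔
      x = ∞ ∨ ∃ y : ℂ, x = (y : P1) ∧ (y = 0 ∨ y ^ 2 = 4) := by
    intro x
    constructor
    · rintro ⟨h1, h2⟩
      have h1' : ff^[2 * m + 1] x = x := h1
      rw [iter_odd h2] at h1'
      rcases not_mem_VV.1 h2 with rfl | ⟨y, rfl, hy | hy | hy⟩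
      · exact Or.inl rfl
      · exact Or.inr ⟨y, rfl, Or.inl hy⟩
      · rw [ff_two hy, OnePoint.coe_eq_coe] at h1'
        exact Or.inr ⟨y, rfl, Or.inl (by linear_combination -h1' / 2)⟩
      · exact Or.inr ⟨y, rfl, Or.inr hy⟩
    · intro h
      have h2 : x ∉ VV := not_mem_VV.2 (h.imp_right fun ⟨y, h3, h4⟩ => ⟨y, h3, by tauto⟩)
      refine ⟨?_, h2⟩
      show ff^[2 * m + 1] x = x
      rw [iter_odd h2]
      rcases h with rfl | ⟨y, rfl, rfl | hy⟩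
      · exact ff_infty
      · exact ff_zero
      · exact ff_four hy
  have m2 : ∀ x, x ∈ Function.fixedPoints (rot (-1) ∘ ff^[2 * m + 1]) \ VV ↔
      x = ∞ ∨ ∃ y : ℂ, x = (y : P1) ∧ (y = 0 ∨ y ^ 2 = 2) := by
    intro x
    constructor
    · rintro ⟨h1, h2⟩
      have h1' : rot (-1) (ff^[2 * m + 1] x) = x := h1
      rw [iter_odd h2] at h1'
      rcases not_mem_VV.1 h2 with rfl | ⟨y, rfl, hy | hy | hy⟩
      · exact Or.inl rfl
      · exact Or.inr ⟨y, rfl, Or.inl hy⟩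
      · exact Or.inr ⟨y, rfl, Or.inr hy⟩
      · rw [ff_four hy, rot_coe, OnePoint.coe_eq_coe] at h1'
        exact Or.inr ⟨y, rfl, Or.inl (by linear_combination -h1' / 2)⟩
    · intro h
      have h2 : x ∉ VV := not_mem_VV.2 (h.imp_right fun ⟨y, h3, h4⟩ => ⟨y, h3, by tauto⟩)
      refine ⟨?_, h2⟩
      show rot (-1) (ff^[2 * m + 1] x) = x
      rw [iter_odd h2]
      rcases h with rfl | ⟨y, rfl, rfl | hy⟩
      · rw [ff_infty, rot_infty]
      · rw [ff_zero, rot_coe, mul_zero]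
      · rw [ff_two hy, rot_coe]; simp
  refine finsum_mem_eq_of_bijOn (rot r) ⟨?_, (isRat_rot hr0).bijective.1.injOn, ?_⟩ ?_
  · intro x hx
    rw [m2]
    rcases (m1 x).1 hx with rfl | ⟨y, rfl, rfl | hy⟩
    · exact Or.inl (rot_infty r)
    · exact Or.inr ⟨_, rot_coe _ _, Or.inl (mul_zero _)⟩
    · exact Or.inr ⟨_, rot_coe _ _, Or.inr (by rw [mul_pow, hr, hy]; norm_num)⟩
  · intro x hx
    rcases (m2 x).1 hx with rfl | ⟨y, rfl, rfl | hy⟩
    · exact ⟨∞, (m1 _).2 (Or.inl rfl), rot_infty r⟩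
    · exact ⟨((0 : ℂ) : P1), (m1 _).2 (Or.inr ⟨0, rfl, Or.inl rfl⟩), by rw [rot_coe, mul_zero]⟩
    · refine ⟨((2 * r * y : ℂ) : P1), (m1 _).2 (Or.inr ⟨_, rfl, Or.inr ?_⟩), ?_⟩
      · rw [mul_pow, mul_pow, hr, hy]; norm_num
      · rw [rot_coe]; congr 1; linear_combination 2 * y * hr
  · intro x hx
    have hx' : rot r x ∈ Function.fixedPoints (rot (-1) ∘ ff^[2 * m + 1]) \ VV := by
      rw [m2]
      rcases (m1 x).1 hx with rfl | ⟨y, rfl, rfl | hy⟩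
      · exact Or.inl (rot_infty r)
      · exact Or.inr ⟨_, rot_coe _ _, Or.inl (mul_zero _)⟩
      · exact Or.inr ⟨_, rot_coe _ _, Or.inr (by rw [mul_pow, hr, hy]; norm_num)⟩
    rw [(crit x hx.2).contrib hx.1, ((crit _ hx'.2).comp (isRat_rot neg_ne)).contrib hx'.1]

end Pool.Agent.H280Z.Mult
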