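import Pool.Agent.H280Z.Mult.Maps

set_option autoImplicit false

open Polynomial Filter Topology OnePoint

namespace Pool.Agent.H280Z.Mult

/-- ordinary points of the upper sphere -/
def UU : Set P1 := {x | ∃ w : ℂ, x = (w : P1) ∧ w ≠ 0 ∧ w ^ 8 ≠ 1}

/-- ordinary points of the lower sphere -/
def VV : Set P1 := {x | ∃ y : ℂ, x = (y : P1) ∧ y ≠ 0 ∧ y ^ 2 ≠ 2 ∧ y ^ 2 ≠ 4}

theorem XX_mem_iff (z : P1) : XX z ∈ VV ↔ z ∈ UU := by
  induction z using OnePoint.rec with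
  | infty =>
    rw [XX_infty]
    constructor
    · rintro ⟨y, hy, -⟩; exact absurd hy (OnePoint.infty_ne_coe _)
    · rintro ⟨y, hy, -⟩; exact absurd hy (OnePoint.infty_ne_coe _)
  | coe w =>
    by_cases hw : w = 0
    · subst hw
      rw [XX_zero]
      constructor
      · rintro ⟨y, hy, -⟩; exact absurd hy (OnePoint.infty_ne_coe _)
      · rintro ⟨y, hy, h0, -⟩; exact absurd (OnePoint.coe_eq_coe.1 hy).symm h0
    · rw [XX_coe hw]
      have key : (w ^ 8 - 1) ^ 2 = w ^ 8 * ((w + w⁻¹) ^ 2 * (((w + w⁻¹) ^ 2 - 2) ^ 2 *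
          ((w + w⁻¹) ^ 2 - 4))) := by field_simp; ring
      constructor
      · rintro ⟨y, hy, h1, h2, h3⟩
        rw [← OnePoint.coe_eq_coe.1 hy] at h1 h2 h3
        refine ⟨w, rfl, hw, fun h => ?_⟩
        rw [h, sub_self] at key
        have : (1 : ℂ) * ((w + w⁻¹) ^ 2 * (((w + w⁻¹) ^ 2 - 2) ^ 2 * ((w + w⁻¹) ^ 2 - 4))) ≠ 0 :=
          mul_ne_zero one_ne_zero (mul_ne_zero (pow_ne_zero _ h1) (mul_ne_zero
            (pow_ne_zero _ (sub_ne_zero.2 h2)) (sub_ne_zero.2 h3)))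
        exact this (by rw [← key]; norm_num)
      · rintro ⟨v, hv, -, h1⟩
        rw [← OnePoint.coe_eq_coe.1 hv] at h1
        have h2 : (w ^ 8 - 1) ^ 2 ≠ 0 := pow_ne_zero _ (sub_ne_zero.2 h1)
        rw [key] at h2
        refine ⟨_, rfl, fun h => h2 ?_, fun h => h2 ?_, fun h => h2 ?_⟩
        · rw [h]; ring
        · rw [h]; ring
        · rw [h]; ring

theorem inv_ne_of_mem {z : P1} (hz : z ∈ UU) : inv z ≠ z := by
  obtain ⟨w, rfl, h0, h1⟩ := hz
  rw [inv_coe h0]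
  intro h
  have h2 : w⁻¹ = w := OnePoint.coe_eq_coe.1 h
  have h3 : w ^ 2 = 1 := by rw [sq]; nth_rewrite 1 [← h2]; exact inv_mul_cancel₀ h0
  apply h1
  calc w ^ 8 = (w ^ 2) ^ 4 := by ring
    _ = 1 := by rw [h3]; norm_num

theorem contrib_XX {d e : ℕ} {k h : P1 → P1} (hk : IsRat d k) (hh : IsRat e h)
    (hc : XX ∘ k = h ∘ XX) {z : P1} (hz : z ∈ UU) (hf : k z = z) :
    contrib k z = contrib h (XX z) := by
  have hf' : h (XX z) = XX z := by
    have := congrFun hc z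
    simp only [Function.comp_apply, hf] at this
    exact this.symm
  obtain ⟨φ₁, r₁⟩ := hk.exists_rep z
  obtain ⟨φ₂, r₂⟩ := hh.exists_rep (XX z)
  rw [hf] at r₁
  rw [hf'] at r₂
  obtain ⟨w, rfl, h0, h1⟩ := hz
  have h2 : w ^ 2 ≠ 1 := by
    intro h3; apply h1
    calc w ^ 8 = (w ^ 2) ^ 4 := by ring
      _ = 1 := by rw [h3]; norm_num
  have hw0 : w + 0 ≠ 0 := by simpa using h0
  have hev : ∀ᶠ t in 𝓝 (0 : ℂ), w + t ≠ 0 :=
    (by fun_prop : ContinuousAt (fun t : ℂ => w + t) 0).eventually_ne hw0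
  have han : AnalyticAt ℂ (fun t : ℂ => (w + t)⁻¹) 0 :=
    (by fun_prop : AnalyticAt ℂ (fun t : ℂ => w + t) 0).inv hw0
  have s : Rep XX (w : P1) (XX (w : P1)) (fun t => (w + t) + (w + t)⁻¹ - (w + w⁻¹)) := by
    refine ⟨((by fun_prop : AnalyticAt ℂ (fun t : ℂ => w + t) 0).add han).sub analyticAt_const,
      by simp, ?_⟩
    filter_upwards [hev] with t ht
    rw [chart_coe, XX_coe ht, XX_coe h0, chart_coe]
    congr 1; ring
  refine contrib_conj r₁ r₂ s hc (fun a b => 1 - (w + a)⁻¹ * (w + b)⁻¹) ?_ ?_ ?_ ?_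
  · have : AnalyticAt ℂ (fun t : ℂ => (w + φ₁ t)⁻¹) 0 :=
      (analyticAt_const.add r₁.an).inv (by simpa [r₁.zero] using h0)
    exact analyticAt_const.sub (this.mul han)
  · simp only [add_zero]
    intro h3
    apply h2
    field_simp at h3
    linear_combination h3
  · have a1 : HasDerivAt (fun t : ℂ => w + t) 1 0 := (hasDerivAt_id 0).const_add w
    have a2 := ((a1.add (a1.inv hw0)).sub_const (w + w⁻¹))
    have a3 : 1 - (w + 0)⁻¹ * (w + 0)⁻¹ = 1 + -1 / (w + 0) ^ 2 := by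
      rw [add_zero]; field_simp; ring
    rw [a3]
    exact a2
  · filter_upwards [hev, r₁.tendsto.eventually hev] with t h3 h4
    field_simp
    ring

theorem contrib_rot {d e : ℕ} {k h : P1 → P1} (hk : IsRat d k) (hh : IsRat e h) {c : ℂ}
    (hc0 : c ≠ 0) (hc : rot c ∘ k = h ∘ rot c) {w : ℂ} (hf : k (w : P1) = w) :
    contrib k (w : P1) = contrib h (rot c w) := by
  have hf' : h (rot c w) = rot c w := by
    have := congrFun hc w
    simp only [Function.comp_apply, hf] at this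
    exact this.symm
  obtain ⟨φ₁, r₁⟩ := hk.exists_rep (w : P1)
  obtain ⟨φ₂, r₂⟩ := hh.exists_rep (rot c w)
  rw [hf] at r₁
  rw [hf'] at r₂
  have s : Rep (rot c) (w : P1) (rot c w) (fun t => c * t) := by
    refine ⟨by fun_prop, by simp, Eventually.of_forall fun t => ?_⟩
    rw [chart_coe, rot_coe, rot_coe, chart_coe, mul_add]
  refine contrib_conj r₁ r₂ s hc (fun _ _ => c) analyticAt_const hc0 ?_ ?_
  · simpa using (hasDerivAt_id (0 : ℂ)).const_mul c
  · exact Eventually.of_forall fun t => by ring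

/-- total contribution of the ordinary fixed points upstairs -/
noncomputable def TT (k : P1 → P1) : Multiset ℂ :=
  ∑ᶠ z ∈ Function.fixedPoints k ∩ UU, contrib k z

theorem rot_mem {c : ℂ} (hc : c ^ 8 = 1) {z : P1} (hz : z ∈ UU) : rot c z ∈ UU := by
  obtain ⟨w, rfl, h0, h1⟩ := hz
  have hc0 : c ≠ 0 := by rintro rfl; norm_num at hc
  exact ⟨c * w, rot_coe c w, mul_ne_zero hc0 h0, by rwa [mul_pow, hc, one_mul]⟩

theorem TT_rot {d e : ℕ} {k h : P1 → P1} (hk : IsRat d k) (hh : IsRat e h) {c : ℂ}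
    (hc8 : c ^ 8 = 1) (hc : rot c ∘ k = h ∘ rot c) : TT k = TT h := by
  have hc0 : c ≠ 0 := by rintro rfl; norm_num at hc8
  have hb := (isRat_rot hc0).bijective
  have hc' : ∀ z, rot c (k z) = h (rot c z) := congrFun hc
  refine finsum_mem_eq_of_bijOn (rot c) ⟨?_, hb.1.injOn, ?_⟩ ?_
  · rintro z ⟨h1, h2⟩
    refine ⟨?_, rot_mem hc8 h2⟩
    have h1' : k z = z := h1
    show h (rot c z) = rot c z
    rw [← hc', h1']
  · rintro y ⟨h1, h2⟩
    have e1 : rot c (rot (c ^ 7) y) = y := by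
      rw [rot_rot, show c * c ^ 7 = 1 by rw [← hc8]; ring, rot_one]
    refine ⟨rot (c ^ 7) y, ⟨?_, rot_mem ?_ h2⟩, e1⟩
    · apply hb.1
      have h1' : h y = y := h1
      rw [hc', e1, h1']
    · rw [← pow_mul, mul_comm, pow_mul, hc8, one_pow]
  · rintro z ⟨h1, w, rfl, -⟩
    exact contrib_rot hk hh hc0 hc h1

theorem quot {d e : ℕ} {k h : P1 → P1} (hk : IsRat d k) (hh : IsRat e h) (he : e ≠ 1)
    (hc : XX ∘ k = h ∘ XX) :
    (∑ᶠ x ∈ Function.fixedPoints h ∩ VV, contrib h x) +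
      (∑ᶠ x ∈ Function.fixedPoints h ∩ VV, contrib h x) = TT k + TT (inv ∘ k) := by
  have hc' : ∀ z, XX (k z) = h (XX z) := congrFun hc
  set S := Function.fixedPoints h ∩ VV with hS
  have hSf : S.Finite := (hh.finite_fixed he).subset Set.inter_subset_left
  choose σ₀ hσ₀ using exists_XX
  let σ : P1 → P1 := fun x => (σ₀ x : P1)
  have hσ : ∀ x, XX (σ x) = x := hσ₀
  have hσ' : ∀ x, XX ((inv ∘ σ) x) = x := fun x => by rw [Function.comp_apply, XX_inv, hσ]
  have i1 : Function.Injective σ := Function.LeftInverse.injective hσ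
  have i2 : Function.Injective (inv ∘ σ) := Function.LeftInverse.injective hσ'
  have e1 : (∑ᶠ x ∈ S, contrib h x) = ∑ᶠ z ∈ σ '' S, contrib h (XX z) := by
    rw [finsum_mem_image i1.injOn]
    exact finsum_mem_congr rfl fun x _ => by rw [hσ]
  have e2 : (∑ᶠ x ∈ S, contrib h x) = ∑ᶠ z ∈ (inv ∘ σ) '' S, contrib h (XX z) := by
    rw [finsum_mem_image i2.injOn]
    exact finsum_mem_congr rfl fun x _ => by rw [hσ']
  have d1 : Disjoint (σ '' S) ((inv ∘ σ) '' S) := by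
    rw [Set.disjoint_left]
    rintro _ ⟨x, hx, rfl⟩ ⟨y, -, hy⟩
    have : y = x := by rw [← hσ' y, hy, hσ]
    subst this
    exact inv_ne_of_mem ((XX_mem_iff _).1 (by rw [hσ]; exact hx.2)) hy
  have u1 : σ '' S ∪ (inv ∘ σ) '' S = XX ⁻¹' S := by
    ext z
    constructor
    · rintro (⟨x, hx, rfl⟩ | ⟨x, hx, rfl⟩)
      · show XX (σ x) ∈ S
        rwa [hσ]
      · show XX ((inv ∘ σ) x) ∈ S
        rwa [hσ']
    · intro hz
      rcases (XX_eq_iff (σ (XX z)) z).1 (hσ _) with h1 | h1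
      · exact Or.inl ⟨_, hz, h1.symm⟩
      · exact Or.inr ⟨_, hz, h1.symm⟩
  have u2 : (Function.fixedPoints k ∩ UU) ∪ (Function.fixedPoints (inv ∘ k) ∩ UU) = XX ⁻¹' S := by
    ext z
    constructor
    · rintro (⟨h1, h2⟩ | ⟨h1, h2⟩)
      · have h1' : k z = z := h1
        refine ⟨?_, (XX_mem_iff _).2 h2⟩
        show h (XX z) = XX z
        rw [← hc', h1']
      · have h1' : inv (k z) = z := h1
        refine ⟨?_, (XX_mem_iff _).2 h2⟩
        show h (XX z) = XX z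
        rw [← hc', ← XX_inv, h1']
    · rintro ⟨h1, h2⟩
      have h1' : h (XX z) = XX z := h1
      have h3 := (XX_mem_iff _).1 h2
      rw [← hc'] at h1'
      rcases (XX_eq_iff _ _).1 h1' with h4 | h4
      · exact Or.inl ⟨h4.symm, h3⟩
      · exact Or.inr ⟨h4.symm, h3⟩
  have d2 : Disjoint (Function.fixedPoints k ∩ UU) (Function.fixedPoints (inv ∘ k) ∩ UU) := by
    rw [Set.disjoint_left]
    rintro z ⟨h1, h2⟩ ⟨h3, -⟩
    have h1' : k z = z := h1
    have h3' : inv (k z) = z := h3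
    rw [h1'] at h3'
    exact inv_ne_of_mem h2 h3'
  have hfin : (XX ⁻¹' S).Finite := u1 ▸ (hSf.image _).union (hSf.image _)
  have f1 : (Function.fixedPoints k ∩ UU).Finite := hfin.subset (u2 ▸ Set.subset_union_left)
  have f2 : (Function.fixedPoints (inv ∘ k) ∩ UU).Finite :=
    hfin.subset (u2 ▸ Set.subset_union_right)
  have hc2 : XX ∘ (inv ∘ k) = h ∘ XX := by
    funext z; simp only [Function.comp_apply, XX_inv, hc']
  have e3 : TT k = ∑ᶠ z ∈ Function.fixedPoints k ∩ UU, contrib h (XX z) :=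
    finsum_mem_congr rfl fun z hz => contrib_XX hk hh hc hz.2 hz.1
  have e4 : TT (inv ∘ k) = ∑ᶠ z ∈ Function.fixedPoints (inv ∘ k) ∩ UU, contrib h (XX z) :=
    finsum_mem_congr rfl fun z hz => contrib_XX (isRat_inv.comp hk) hh hc2 hz.2 hz.1
  rw [e3, e4, ← finsum_mem_union d2 f1 f2, u2, ← u1,
    finsum_mem_union d1 (hSf.image _) (hSf.image _), ← e1, ← e2]

theorem exists_zeta : ∃ ζ : ℂ, ζ ^ 4 = -1 :=
  IsAlgClosed.exists_pow_nat_eq (-1 : ℂ) (n := 4) (by norm_num)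

/-- the ordinary parts of the spectra of `h` and `-h` agree -/
theorem ordinary_eq {d : ℕ} {k h : P1 → P1} (hk : IsRat d k) (hh : IsRat d h) (hd : d ≠ 1)
    (hc : XX ∘ k = h ∘ XX) (hs : ∀ c : ℂ, c ^ 8 = 1 → ∀ x, k (rot c x) = rot (c ^ 3) (k x)) :
    (∑ᶠ x ∈ Function.fixedPoints h ∩ VV, contrib h x) =
      ∑ᶠ x ∈ Function.fixedPoints (rot (-1) ∘ h) ∩ VV, contrib (rot (-1) ∘ h) x := by
  obtain ⟨ζ, hζ⟩ := exists_zeta
  have hζ8 : ζ ^ 8 = 1 := by
    calc ζ ^ 8 = (ζ ^ 4) ^ 2 := by ring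
      _ = 1 := by rw [hζ]; norm_num
  have hk' : IsRat (1 * d) (rot (-1) ∘ k) := (isRat_rot neg_ne).comp hk
  have hh' : IsRat (1 * d) (rot (-1) ∘ h) := (isRat_rot neg_ne).comp hh
  have hc' : XX ∘ (rot (-1) ∘ k) = (rot (-1) ∘ h) ∘ XX := by
    funext z
    have := congrFun hc z
    simp only [Function.comp_apply] at this ⊢
    rw [XX_neg, this]
  have q1 := quot hk hh hd hc
  have q2 := quot hk' hh' (by simpa using hd) hc'
  have h28 : (ζ ^ 2) ^ 8 = 1 := by rw [← pow_mul, mul_comm, pow_mul, hζ8, one_pow]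
  have t1 : TT k = TT (rot (-1) ∘ k) := by
    refine TT_rot hk hk' h28 ?_
    funext z
    simp only [Function.comp_apply]
    rw [hs _ h28, rot_rot]
    congr 1
    linear_combination ζ ^ 2 * hζ
  have t2 : TT (inv ∘ k) = TT (inv ∘ (rot (-1) ∘ k)) := by
    refine TT_rot (isRat_inv.comp hk) (isRat_inv.comp hk') hζ8 ?_
    funext z
    simp only [Function.comp_apply]
    rw [hs _ hζ8, rot_rot, inv_rot (e := ζ) (by linear_combination -hζ)]
  rw [t1, t2, ← q2, ← two_nsmul, ← two_nsmul] at q1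
  classical
  ext a
  have := congrArg (Multiset.count a) q1
  rw [Multiset.count_nsmul, Multiset.count_nsmul] at this
  omega

end Pool.Agent.H280Z.Mult
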